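import Mathlib

/-!
# Constraint satisfaction problems, the basic LP and its approximability threshold
-/

open Finset

namespace Pool.Agent.MP_8ad0a3_lc

/-- An instance of `CSP(F)`: a finite variable set `V` and a nonempty sequence of `m` constraints;
the `i`-th constraint applies the predicate `f i ∈ F` to the `k` distinct variables
`e i 0, ..., e i (k-1)`. -/
structure Inst (S : Type) (k : ℕ) (F : Set ((Fin k → S) → Bool)) where
  V : Type
  fin : Fintype V
  m : ℕ
  m_pos : 0 < m
  e : Fin m → Fin k → V
  e_inj : ∀ i, Function.Injective (e i)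
  f : Fin m → (Fin k → S) → Bool
  f_mem : ∀ i, f i ∈ F

namespace Inst

variable {S : Type} {k : ℕ} {F : Set ((Fin k → S) → Bool)}

/-- The value of the assignment `τ`: the fraction of satisfied constraints. -/
noncomputable def valOf (I : Inst S k F) (τ : I.V → S) : ℝ :=
  (∑ i : Fin I.m, if I.f i (fun j => τ (I.e i j)) = true then (1 : ℝ) else 0) / I.m

/-- The value of the instance: the maximum over all assignments. -/
noncomputable def val (I : Inst S k F) : ℝ := ⨆ τ : I.V → S, I.valOf τ

variable [Fintype S]

open Classical in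
/-- Feasible points of the basic LP. -/
structure Feasible (I : Inst S k F) (x : I.V → S → ℝ) (z : Fin I.m → (Fin k → S) → ℝ) :
    Prop where
  x_nonneg : ∀ v σ, 0 ≤ x v σ
  z_nonneg : ∀ i a, 0 ≤ z i a
  x_sum : ∀ v, ∑ σ, x v σ = 1
  z_sum : ∀ i, ∑ a, z i a = 1
  marg : ∀ i j σ, (∑ a : Fin k → S, if a j = σ then z i a else 0) = x (I.e i j) σ

open Classical in
/-- The objective of the basic LP. -/
noncomputable def lpObj (I : Inst S k F) (z : Fin I.m → (Fin k → S) → ℝ) : ℝ :=
  (∑ i : Fin I.m, ∑ a : Fin k → S, (if I.f i a = true then (1 : ℝ) else 0) * z i a) / I.m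

/-- The optimum of the basic LP. -/
noncomputable def lpVal (I : Inst S k F) : ℝ :=
  sSup {r : ℝ | ∃ x z, I.Feasible x z ∧ r = I.lpObj z}

end Inst

variable {S : Type} [Fintype S] {k : ℕ}

open Classical in
/-- `ϑ*_F(c)`: the infimum of the values of the instances whose basic LP has value at least `c`
(and `1` if `F` consists of the all-zero predicate only). -/
noncomputable def thetaStar (F : Set ((Fin k → S) → Bool)) (c : ℝ) : ℝ :=
  if ∀ f ∈ F, ∀ a, f a = false then 1
  else sInf {r : ℝ | ∃ I : Inst S k F, c ≤ I.lpVal ∧ r = I.val}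

/-- The threshold function `ϑ_F(c) = min {c, ϑ*_F(c)}`. -/
noncomputable def theta (F : Set ((Fin k → S) → Bool)) (c : ℝ) : ℝ := min c (thetaStar F c)

end Pool.Agent.MP_8ad0a3_lc
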