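import Pool.Agent.MP_8ad0a3_lc.Defs

/-!
# The family of predicates
-/

open Finset

namespace Pool.Agent.MP_8ad0a3_lc

/-- Symbols: a bit, a flavour and a label. -/
abbrev Sym (C L : ℕ) : Type := Bool × ZMod C × (ZMod L ⊕ ZMod 2)

section preds

variable {l C L : ℕ}

/-- the bits of the first five coordinates -/
def U (a : Fin (5 + l) → Sym C L) (i : Fin 5) : Bool := (a (Fin.castAdd l i)).1
/-- the flavours of the first five coordinates -/
def Fl (a : Fin (5 + l) → Sym C L) (i : Fin 5) : ZMod C := (a (Fin.castAdd l i)).2.1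
/-- the labels of the first five coordinates -/
def Lb (a : Fin (5 + l) → Sym C L) (i : Fin 5) : ZMod L ⊕ ZMod 2 := (a (Fin.castAdd l i)).2.2
/-- the bits of the last `l` coordinates -/
def Tb (a : Fin (5 + l) → Sym C L) (j : Fin l) : Bool := (a (Fin.natAdd 5 j)).1
/-- the flavours of the last `l` coordinates -/
def Tf (a : Fin (5 + l) → Sym C L) (j : Fin l) : ZMod C := (a (Fin.natAdd 5 j)).2.1

/-- The label condition. -/
def Q3 {Λ : Type} (y y' x z1 z2 : Λ) : Prop :=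
  y = y' → ((x = z1 ∧ x = z2 ∧ x ≠ y) ∨ (x = y ∧ z2 = y ∧ z1 ≠ y) ∨ (z1 = y ∧ x ≠ y ∧ z2 ≠ y))

/-- The nonzero bit patterns of `(y, y', x, x + y, x + y + y')`. -/
def Pat (u : Fin 5 → Bool) : Prop :=
  (u 0 = true ∧ u 1 = false ∧ u 2 = false ∧ u 3 = true ∧ u 4 = true) ∨
  (u 0 = false ∧ u 1 = true ∧ u 2 = false ∧ u 3 = false ∧ u 4 = true) ∨
  (u 0 = false ∧ u 1 = false ∧ u 2 = true ∧ u 3 = true ∧ u 4 = true)

/-- Disjunction of the last `l` bits. -/
def PG (a : Fin (5 + l) → Sym C L) : Prop := ∃ j, Tb a j = true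

/-- Equality predicate. -/
def PE [NeZero l] (π : ZMod C) (a : Fin (5 + l) → Sym C L) : Prop :=
  (U a 0 = false ∧ U a 1 = false ∧ (∀ j, Tb a j = false) ∧ Lb a 0 = Lb a 1) ∨
  (U a 0 = true ∧ U a 1 = true ∧ Fl a 0 + Tf a 0 = π)

/-- Sum predicate. -/
def PQ [NeZero l] (π : ZMod C) (a : Fin (5 + l) → Sym C L) : Prop :=
  ((∀ i, U a i = false) ∧ (∀ j, Tb a j = false) ∧
    Q3 (Lb a 0) (Lb a 1) (Lb a 2) (Lb a 3) (Lb a 4)) ∨
  (Pat (U a) ∧ Fl a 4 + Tf a 0 = π)

open Classical in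
/-- `{0,1}`-valued form of `PG`. -/
noncomputable def bG : (Fin (5 + l) → Sym C L) → Bool := fun a => decide (PG a)

open Classical in
/-- `{0,1}`-valued form of `PE`. -/
noncomputable def bE [NeZero l] (π : ZMod C) : (Fin (5 + l) → Sym C L) → Bool :=
  fun a => decide (PE π a)

open Classical in
/-- `{0,1}`-valued form of `PQ`. -/
noncomputable def bQ [NeZero l] (π : ZMod C) : (Fin (5 + l) → Sym C L) → Bool :=
  fun a => decide (PQ π a)

theorem bG_iff (a : Fin (5 + l) → Sym C L) : bG a = true ↔ PG a := by simp [bG]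

theorem bE_iff [NeZero l] (π : ZMod C) (a : Fin (5 + l) → Sym C L) : bE π a = true ↔ PE π a := by
  simp [bE]

theorem bQ_iff [NeZero l] (π : ZMod C) (a : Fin (5 + l) → Sym C L) : bQ π a = true ↔ PQ π a := by
  simp [bQ]

/-- The family of predicates. -/
def Fam (l C L : ℕ) [NeZero l] : Set ((Fin (5 + l) → Sym C L) → Bool) :=
  {f | f = bG ∨ (∃ π, f = bE π) ∨ (∃ π, f = bQ π)}

end preds

end Pool.Agent.MP_8ad0a3_lc
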