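import Mathlib

/-!
# Integer solutions of rational linear relations and 2-adic valuations
-/

open Finset

namespace Pool.Agent.MP_8ad0a3_lc

/-- Finitely many real numbers can be replaced by integers, preserving equalities, sums and
non-vanishing. -/
theorem exists_int {V : Type} [Fintype V] (p : V → ℝ) :
    ∃ w : V → ℤ, (∀ v, w v = 0 ↔ p v = 0) ∧ (∀ u v, p u = p v → w u = w v) ∧
      (∀ t u v, p t = p u + p v → w t = w u + w v) := by
  classical
  -- a rational functional which does not vanish on the nonzero `p v`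
  obtain ⟨h, hh⟩ : ∃ h : Module.Dual ℚ ℝ, ∀ v, p v ≠ 0 → h (p v) ≠ 0 := by
    by_contra hcon
    push Not at hcon
    have hcov : (⋃ v : {v // p v ≠ 0},
        ((LinearMap.ker (Module.Dual.eval ℚ ℝ (p v.1)) : Subspace ℚ (Module.Dual ℚ ℝ)) :
          Set (Module.Dual ℚ ℝ))) = Set.univ := by
      rw [Set.eq_univ_iff_forall]
      intro h
      obtain ⟨v, hv, hv'⟩ := hcon h
      rw [Set.mem_iUnion]
      refine ⟨⟨v, hv⟩, ?_⟩
      simpa using hv'
    obtain ⟨v, hv⟩ := Subspace.exists_eq_top_of_iUnion_eq_univ hcov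
    refine v.2 ((Module.forall_dual_apply_eq_zero_iff ℚ (p v.1)).1 ?_)
    intro φ
    have : φ ∈ LinearMap.ker (Module.Dual.eval ℚ ℝ (p v.1)) := by rw [hv]; trivial
    simpa using this
  set D : ℕ := ∏ v, (h (p v)).den with hD
  have hDne : (D : ℚ) ≠ 0 := by
    have : D ≠ 0 := prod_ne_zero_iff.2 (fun v _ => (h (p v)).den_nz)
    exact_mod_cast this
  have hint : ∀ v, ∃ n : ℤ, (n : ℚ) = D * h (p v) := by
    intro v
    have hdvd : (h (p v)).den ∣ D := dvd_prod_of_mem _ (mem_univ v)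
    obtain ⟨c, hc⟩ := hdvd
    refine ⟨c * (h (p v)).num, ?_⟩
    have h1 : ((h (p v)).den : ℚ) * h (p v) = (h (p v)).num := Rat.den_mul_eq_num _
    rw [hc]
    push_cast
    rw [← h1]
    ring
  choose w hw using hint
  refine ⟨w, ?_, ?_, ?_⟩
  · intro v
    have h1 : w v = 0 ↔ (w v : ℚ) = 0 := by norm_cast
    rw [h1, hw, mul_eq_zero]
    constructor
    · rintro (h2 | h2)
      · exact absurd h2 hDne
      · by_contra hne
        exact hh v hne h2
    · intro h2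
      right
      rw [h2, map_zero]
  · intro u v huv
    have : (w u : ℚ) = w v := by rw [hw, hw, huv]
    exact_mod_cast this
  · intro t u v htuv
    have : (w t : ℚ) = w u + w v := by rw [hw, hw, hw, htuv, map_add]; ring
    exact_mod_cast this

/-- the 2-adic valuation -/
def v2 (n : ℤ) : ℕ := padicValInt 2 n

theorem v2_eq (k : ℕ) (c : ℤ) (hc : Odd c) : v2 (2 ^ k * c) = k := by
  unfold v2
  have hne : (2 : ℤ) ^ k * c ≠ 0 := by
    refine mul_ne_zero (by positivity) ?_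
    rintro rfl
    exact absurd hc (by decide)
  have h1 : k ≤ padicValInt 2 (2 ^ k * c) := by
    have := (padicValInt_dvd_iff (p := 2) k (2 ^ k * c)).1 (Dvd.intro c rfl)
    exact this.resolve_left hne
  have h2 : ¬ (k + 1 ≤ padicValInt 2 (2 ^ k * c)) := by
    intro h
    have h3 := (padicValInt_dvd_iff (p := 2) (k + 1) (2 ^ k * c)).2 (Or.inr h)
    push_cast at h3
    rw [pow_succ] at h3
    have h4 : (2 : ℤ) ∣ c := (mul_dvd_mul_iff_left (by positivity)).1 h3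
    obtain ⟨d, hd⟩ := hc
    omega
  omega

theorem v2_ne (k : ℕ) (c : ℤ) (hc : Even c) (hne : (2 : ℤ) ^ k * c ≠ 0) : v2 (2 ^ k * c) ≠ k := by
  obtain ⟨d, rfl⟩ := hc
  have h1 : (2 : ℤ) ^ k * (d + d) = 2 ^ (k + 1) * d := by rw [pow_succ]; ring
  rw [h1] at hne ⊢
  unfold v2
  have := (padicValInt_dvd_iff (p := 2) (k + 1) (2 ^ (k + 1) * d)).1 (Dvd.intro d rfl)
  have h2 : k + 1 ≤ padicValInt 2 (2 ^ (k + 1) * d) := this.resolve_left hne
  omega

theorem exists_odd (n : ℤ) (hn : n ≠ 0) : ∃ c, Odd c ∧ n = 2 ^ (v2 n) * c := by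
  have h1 : (2 : ℤ) ^ (v2 n) ∣ n := by
    have := padicValInt_dvd (p := 2) n
    exact_mod_cast this
  obtain ⟨c, hc⟩ := h1
  refine ⟨c, ?_, hc⟩
  rw [← Int.not_even_iff_odd]
  intro he
  have h2 : v2 (2 ^ (v2 n) * c) ≠ v2 n := v2_ne _ c he (by rw [← hc]; exact hn)
  rw [← hc] at h2
  exact h2 rfl

/-- smaller valuation wins -/
theorem v2_add_lt (x y : ℤ) (hx : x ≠ 0) (k : ℕ) (hk : v2 x < k) (hy : ∃ c, y = 2 ^ k * c) :
    v2 (x + y) = v2 x := by
  obtain ⟨c, hc, hx'⟩ := exists_odd x hx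
  obtain ⟨d, hd⟩ := hy
  obtain ⟨r, rfl⟩ : ∃ r, k = v2 x + 1 + r := ⟨k - (v2 x + 1), by omega⟩
  have h1 : x + y = 2 ^ (v2 x) * (c + 2 * (2 ^ r * d)) := by
    calc x + y = 2 ^ (v2 x) * c + 2 ^ (v2 x + 1 + r) * d := by rw [← hx', ← hd]
      _ = 2 ^ (v2 x) * (c + 2 * (2 ^ r * d)) := by rw [pow_add, pow_succ]; ring
  have h2 : Odd (c + 2 * (2 ^ r * d)) := by
    rw [Int.odd_add]
    constructor
    · intro _; exact even_two_mul _
    · intro _; exact hc
  rw [h1]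
  exact v2_eq _ _ h2

/-- two equal valuations add up to a larger one -/
theorem add_of_eq (y y' : ℤ) (hy : y ≠ 0) (hy' : y' ≠ 0) (h : v2 y = v2 y') :
    ∃ c, y + y' = 2 ^ (v2 y + 1) * c := by
  obtain ⟨c, hc, h1⟩ := exists_odd y hy
  obtain ⟨d, hd, h2⟩ := exists_odd y' hy'
  obtain ⟨r, hr⟩ := hc.add_odd hd
  refine ⟨r, ?_⟩
  rw [← h] at h2
  have : y + y' = 2 ^ (v2 y) * (c + d) := by
    conv_lhs => rw [h1, h2]
    ring
  rw [this, hr, pow_succ]
  ring

theorem v2_ne_of_mul (n : ℤ) (hn : n ≠ 0) (m : ℕ) (h : ∃ c, n = 2 ^ (m + 1) * c) : v2 n ≠ m := by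
  obtain ⟨c, hc⟩ := h
  have h1 : n = 2 ^ m * (c + c) := by rw [hc, pow_succ]; ring
  rw [h1] at hn ⊢
  exact v2_ne m (c + c) ⟨c, rfl⟩ hn

theorem v2_lt_iff (n : ℤ) (hn : n ≠ 0) (m : ℕ) (h : m < v2 n) : ∃ c, n = 2 ^ (m + 1) * c := by
  obtain ⟨c, -, hc⟩ := exists_odd n hn
  obtain ⟨r, hr⟩ : ∃ r, v2 n = m + 1 + r := ⟨v2 n - (m + 1), by omega⟩
  refine ⟨2 ^ r * c, ?_⟩
  conv_lhs => rw [hc, hr, pow_add]
  ring

end Pool.Agent.MP_8ad0a3_lc
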