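import Pool.Agent.MP_8ad0a3_lc.General
import Pool.Agent.MP_8ad0a3_lc.Preds
import Pool.Agent.MP_8ad0a3_lc.Val

/-!
# Instances of LP value one have value at least `1/2 - 2/L`
-/

open Finset

namespace Pool.Agent.MP_8ad0a3_lc

section counting

theorem sum_pair {W A : Type} [Fintype W] [Fintype A] [DecidableEq W] [DecidableEq A]
    [AddCommGroup A] (a b : W) (hab : a ≠ b) :
    (∑ s : W → A, if s a = s b then (1 : ℝ) else 0) * Fintype.card A = Fintype.card (W → A) := by
  have h1 : ∀ t : A, (∑ s : W → A, if s a + t = s b then (1 : ℝ) else 0) =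
      ∑ s : W → A, if s a = s b then (1 : ℝ) else 0 := by
    intro t
    let e : (W → A) ≃ (W → A) :=
      { toFun := fun s => Function.update s a (s a + t)
        invFun := fun s => Function.update s a (s a - t)
        left_inv := by
          intro s
          funext w
          by_cases hw : w = a
          · subst hw; simp
          · simp [Function.update_of_ne hw]
        right_inv := by
          intro s
          funext w
          by_cases hw : w = a
          · subst hw; simp
          · simp [Function.update_of_ne hw] }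
    rw [← Equiv.sum_comp e (fun s : W → A => if s a = s b then (1 : ℝ) else 0)]
    refine sum_congr rfl ?_
    intro s _
    have e1 : e s a = s a + t := by simp [e]
    have e2 : e s b = s b := by simp [e, Function.update_of_ne hab.symm]
    rw [e1, e2]
  have h2 : (∑ t : A, ∑ s : W → A, if s a + t = s b then (1 : ℝ) else 0) =
      Fintype.card (W → A) := by
    rw [sum_comm]
    have : ∀ s : W → A, (∑ t : A, if s a + t = s b then (1 : ℝ) else 0) = 1 := by
      intro s
      rw [sum_eq_single (s b - s a)]
      · rw [if_pos (by abel)]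
      · intro t _ ht
        rw [if_neg]
        intro h
        apply ht
        rw [← h]; abel
      · intro h
        exact absurd (mem_univ _) h
    rw [sum_congr rfl (fun s _ => this s)]
    rw [sum_const, card_univ, nsmul_eq_mul, mul_one]
  rw [sum_congr rfl (fun t _ => h1 t), sum_const, card_univ, nsmul_eq_mul] at h2
  rw [mul_comm]
  exact h2

variable {α β γ : Type} [Fintype α] [Fintype β] [Fintype γ]

theorem sum_first (g : α → ℝ) :
    ∑ ω : α × β × γ, g ω.1 = (∑ x, g x) * (Fintype.card β * Fintype.card γ) := by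
  rw [Fintype.sum_prod_type]
  simp only [sum_const, card_univ, Fintype.card_prod, nsmul_eq_mul]
  rw [← mul_sum]
  push_cast
  ring

theorem sum_second (g : β → ℝ) :
    ∑ ω : α × β × γ, g ω.2.1 = (∑ x, g x) * (Fintype.card α * Fintype.card γ) := by
  rw [Fintype.sum_prod_type]
  simp only [Fintype.sum_prod_type, sum_const, card_univ, nsmul_eq_mul]
  rw [← mul_sum]
  ring

theorem sum_third (g : γ → ℝ) :
    ∑ ω : α × β × γ, g ω.2.2 = (∑ x, g x) * (Fintype.card α * Fintype.card β) := by
  rw [Fintype.sum_prod_type]
  simp only [Fintype.sum_prod_type, sum_const, card_univ, nsmul_eq_mul]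
  ring

end counting

section positions

variable {S : Type} [Fintype S] {k : ℕ} {F : Set ((Fin k → S) → Bool)}

/-- the position of a variable: the LP probability of the bit `1` -/
noncomputable def pos {V : Type} (β : S → Bool) (x : V → S → ℝ) (v : V) : ℝ :=
  ∑ σ : S, if β σ = true then x v σ else 0

open Classical in
theorem pos_eq (I : Inst S k F) (β : S → Bool) {x : I.V → S → ℝ}
    {z : Fin I.m → (Fin k → S) → ℝ} (h : I.Feasible x z) (i : Fin I.m)
    (j : Fin k) : pos β x (I.e i j) = ∑ a, if β (a j) = true then z i a else 0 := by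
  unfold pos
  have : ∀ σ : S, (if β σ = true then x (I.e i j) σ else 0) =
      ∑ a : Fin k → S, if a j = σ then (if β σ = true then z i a else 0) else 0 := by
    intro σ
    rw [← h.marg i j σ]
    by_cases hσ : β σ = true
    · simp [hσ]
    · simp [hσ]
  rw [sum_congr rfl (fun σ _ => this σ), sum_comm]
  refine sum_congr rfl ?_
  intro a _
  rw [sum_ite_eq]
  simp

theorem pos_nonneg {V : Type} (β : S → Bool) (x : V → S → ℝ) (hx : ∀ v σ, 0 ≤ x v σ) (v : V) :
    0 ≤ pos β x v := by
  unfold pos
  refine sum_nonneg ?_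
  intro σ _
  split_ifs
  · exact hx v σ
  · exact le_rfl

open Classical in
/-- Linear relations between positions that hold for every satisfying assignment. -/
theorem pos_le_of (I : Inst S k F) (β : S → Bool) {x : I.V → S → ℝ}
    {z : Fin I.m → (Fin k → S) → ℝ} (h : I.Feasible x z) (i : Fin I.m)
    (hs : ∀ a, I.f i a ≠ true → z i a = 0)
    (j j' : Fin k) (hj : ∀ a, I.f i a = true → β (a j) = true → β (a j') = true) :
    pos β x (I.e i j) ≤ pos β x (I.e i j') := by
  rw [pos_eq I β h, pos_eq I β h]
  refine sum_le_sum ?_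
  intro a _
  by_cases hf : I.f i a = true
  · by_cases h1 : β (a j) = true
    · rw [if_pos h1, if_pos (hj a hf h1)]
    · rw [if_neg h1]
      split_ifs
      · exact h.z_nonneg i a
      · exact le_rfl
  · rw [hs a hf]
    simp

open Classical in
theorem pos_add_of (I : Inst S k F) (β : S → Bool) {x : I.V → S → ℝ}
    {z : Fin I.m → (Fin k → S) → ℝ} (h : I.Feasible x z) (i : Fin I.m)
    (hs : ∀ a, I.f i a ≠ true → z i a = 0)
    (j j1 j2 : Fin k)
    (hj : ∀ a, I.f i a = true → ((β (a j) = true ↔ (β (a j1) = true ∨ β (a j2) = true)) ∧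
      ¬ (β (a j1) = true ∧ β (a j2) = true))) :
    pos β x (I.e i j) = pos β x (I.e i j1) + pos β x (I.e i j2) := by
  rw [pos_eq I β h, pos_eq I β h, pos_eq I β h, ← sum_add_distrib]
  refine sum_congr rfl ?_
  intro a _
  by_cases hf : I.f i a = true
  · obtain ⟨h1, h2⟩ := hj a hf
    by_cases h3 : β (a j1) = true
    · have h4 : ¬ β (a j2) = true := fun h4 => h2 ⟨h3, h4⟩
      rw [if_pos h3, if_neg h4, if_pos (h1.2 (Or.inl h3)), add_zero]
    · by_cases h4 : β (a j2) = true
      · rw [if_neg h3, if_pos h4, if_pos (h1.2 (Or.inr h4)), zero_add]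
      · rw [if_neg h3, if_neg h4, if_neg (fun h5 => (h1.1 h5).elim h3 h4), add_zero]
  · rw [hs a hf]
    simp

open Classical in
/-- If every satisfying assignment has a bit `1` among the coordinates `J j` then some of these
positions are positive. -/
theorem pos_exists_of (I : Inst S k F) (β : S → Bool) {x : I.V → S → ℝ}
    {z : Fin I.m → (Fin k → S) → ℝ} (h : I.Feasible x z) (i : Fin I.m)
    (hs : ∀ a, I.f i a ≠ true → z i a = 0) {κ : Type} [Fintype κ] (J : κ → Fin k)
    (hj : ∀ a, I.f i a = true → ∃ j, β (a (J j)) = true) :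
    ∃ j, pos β x (I.e i (J j)) ≠ 0 := by
  by_contra hcon
  push Not at hcon
  have h1 : (∑ a, z i a) ≤ ∑ j : κ, pos β x (I.e i (J j)) := by
    have : ∀ j : κ, pos β x (I.e i (J j)) = ∑ a, if β (a (J j)) = true then z i a else 0 :=
      fun j => pos_eq I β h i (J j)
    rw [sum_congr rfl (fun j _ => this j), sum_comm]
    refine sum_le_sum ?_
    intro a _
    by_cases hf : I.f i a = true
    · obtain ⟨j, hj'⟩ := hj a hf
      have h2 : (if β (a (J j)) = true then z i a else 0) ≤
          ∑ j : κ, if β (a (J j)) = true then z i a else 0 := by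
        refine single_le_sum (f := fun j : κ => if β (a (J j)) = true then z i a else 0) ?_
          (mem_univ j)
        intro j _
        split_ifs
        · exact h.z_nonneg i a
        · exact le_rfl
      rw [if_pos hj'] at h2
      exact h2
    · rw [hs a hf]
      simp
  rw [h.z_sum i, sum_congr rfl (fun j _ => hcon j)] at h1
  simp at h1
  linarith

end positions

section wild

variable {V : Type} {W A B : Type}

open Classical in
/-- hashed valuations for the variables of nonzero position, extra labels for the others -/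
noncomputable def lam (p : V → ℝ) (vv : V → W) (s : W → A) (b : V → B) (v : V) : A ⊕ B :=
  if p v = 0 then Sum.inr (b v) else Sum.inl (s (vv v))

theorem lam_zero (p : V → ℝ) (vv : V → W) (s : W → A) (b : V → B) (v : V) (h : p v = 0) :
    lam p vv s b v = Sum.inr (b v) := by
  unfold lam; rw [if_pos h]

theorem lam_ne (p : V → ℝ) (vv : V → W) (s : W → A) (b : V → B) (v : V) (h : p v ≠ 0) :
    lam p vv s b v = Sum.inl (s (vv v)) := by
  unfold lam; rw [if_neg h]

/-- The label condition holds for hashed valuations unless one of two hash collisions occurs. -/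
theorem q3_exact (p : V → ℝ) (hp : ∀ v, 0 ≤ p v) (w : V → ℤ) (hw0 : ∀ v, w v = 0 ↔ p v = 0)
    (hweq : ∀ u v, p u = p v → w u = w v) (hwadd : ∀ t u v, p t = p u + p v → w t = w u + w v)
    (vv : V → W) (hvv : ∀ u v, vv u = vv v ↔ v2 (w u) = v2 (w v))
    (Y Y' X Z1 Z2 : V) (h1 : p Z1 = p X + p Y) (h2 : p Z2 = p Z1 + p Y') (h3 : p Z2 ≠ 0) :
    ∃ α1 β1 α2 β2 : W, ∀ (s : W → A) (b : V → B), (α1 ≠ β1 → s α1 ≠ s β1) →
      (α2 ≠ β2 → s α2 ≠ s β2) →
      Q3 (lam p vv s b Y) (lam p vv s b Y') (lam p vv s b X) (lam p vv s b Z1)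
        (lam p vv s b Z2) := by
  have nX := hp X
  have nY := hp Y
  have nY' := hp Y'
  have nZ1 := hp Z1
  have wZ1 : w Z1 = w X + w Y := hwadd _ _ _ h1
  have wZ2 : w Z2 = w Z1 + w Y' := hwadd _ _ _ h2
  have hwZ2 : w Z2 ≠ 0 := fun h => h3 ((hw0 _).1 h)
  by_cases hY : p Y = 0
  · by_cases hY' : p Y' = 0
    · -- both steps are zero
      refine ⟨vv X, vv X, vv X, vv X, ?_⟩
      intro s b _ _ _
      left
      have e1 : p Z1 = p X := by rw [h1, hY, add_zero]
      have e2 : p Z2 = p X := by rw [h2, hY', add_zero, e1]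
      have hX : p X ≠ 0 := by rw [← e2]; exact h3
      have hZ1 : p Z1 ≠ 0 := by rw [e1]; exact hX
      have f1 : vv Z1 = vv X := by rw [hvv, hweq _ _ e1]
      have f2 : vv Z2 = vv X := by rw [hvv, hweq _ _ e2]
      rw [lam_ne p vv s b X hX, lam_ne p vv s b Z1 hZ1, lam_ne p vv s b Z2 h3,
        lam_zero p vv s b Y hY, f1, f2]
      exact ⟨rfl, rfl, by simp⟩
    · refine ⟨vv X, vv X, vv X, vv X, ?_⟩
      intro s b _ _ hlab
      rw [lam_zero p vv s b Y hY, lam_ne p vv s b Y' hY'] at hlab
      exact absurd hlab (by simp)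
  · by_cases hY' : p Y' = 0
    · refine ⟨vv X, vv X, vv X, vv X, ?_⟩
      intro s b _ _ hlab
      rw [lam_ne p vv s b Y hY, lam_zero p vv s b Y' hY'] at hlab
      exact absurd hlab (by simp)
    · have wY : w Y ≠ 0 := fun h => hY ((hw0 _).1 h)
      have wY' : w Y' ≠ 0 := fun h => hY' ((hw0 _).1 h)
      have hZ1 : p Z1 ≠ 0 := by
        intro h
        apply hY
        linarith
      have hwZ1 : w Z1 ≠ 0 := fun h => hZ1 ((hw0 _).1 h)
      by_cases hv : v2 (w Y) = v2 (w Y')
      · -- equal valuations of the two steps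
        obtain ⟨c, hc⟩ := add_of_eq (w Y) (w Y') wY wY' hv
        obtain ⟨cY, hcY, hYe⟩ := exists_odd (w Y) wY
        obtain ⟨cY', hcY', hYe'⟩ := exists_odd (w Y') wY'
        rw [← hv] at hYe'
        set m := v2 (w Y) with hm
        have hsum : w Z2 = w X + (w Y + w Y') := by rw [wZ2, wZ1]; ring
        -- the case of a larger valuation of X (or X = 0)
        have big : (∃ d, w X = 2 ^ (m + 1) * d) → v2 (w Z1) = m ∧ v2 (w Z2) ≠ m := by
          rintro ⟨d, hd⟩
          constructor
          · rw [wZ1, add_comm, hm]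
            exact v2_add_lt (w Y) (w X) wY (m + 1) (by omega) ⟨d, hd⟩
          · refine v2_ne_of_mul (w Z2) hwZ2 m ⟨d + c, ?_⟩
            rw [hsum, hd, hc]; ring
        by_cases hX : p X = 0
        · have wX : w X = 0 := (hw0 _).2 hX
          obtain ⟨g1, g2⟩ := big ⟨0, by rw [wX]; ring⟩
          refine ⟨vv Z2, vv Y, vv X, vv X, ?_⟩
          intro s b k1 _ _
          right; right
          have f1 : vv Z1 = vv Y := by rw [hvv, g1]
          have f2 : vv Z2 ≠ vv Y := by rw [Ne, hvv]; exact g2
          rw [lam_ne p vv s b Y hY, lam_zero p vv s b X hX, lam_ne p vv s b Z1 hZ1,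
            lam_ne p vv s b Z2 h3, f1]
          refine ⟨rfl, by simp, ?_⟩
          intro h
          exact k1 f2 (Sum.inl_injective h)
        · have wX : w X ≠ 0 := fun h => hX ((hw0 _).1 h)
          rcases lt_trichotomy (v2 (w X)) m with hlt | heq | hgt
          · -- smaller valuation of X
            have g1 : v2 (w Z1) = v2 (w X) := by
              rw [wZ1]
              exact v2_add_lt (w X) (w Y) wX m hlt ⟨cY, hYe⟩
            have g2 : v2 (w Z2) = v2 (w X) := by
              rw [hsum]
              exact v2_add_lt (w X) (w Y + w Y') wX (m + 1) (by omega) ⟨c, hc⟩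
            refine ⟨vv X, vv Y, vv X, vv X, ?_⟩
            intro s b k1 _ _
            left
            have f1 : vv Z1 = vv X := by rw [hvv, g1]
            have f2 : vv Z2 = vv X := by rw [hvv, g2]
            have f3 : vv X ≠ vv Y := by rw [Ne, hvv, ← hm]; omega
            rw [lam_ne p vv s b Y hY, lam_ne p vv s b X hX, lam_ne p vv s b Z1 hZ1,
              lam_ne p vv s b Z2 h3, f1, f2]
            exact ⟨rfl, rfl, fun h => k1 f3 (Sum.inl_injective h)⟩
          · -- equal valuations
            obtain ⟨cX, hcX, hXe⟩ := exists_odd (w X) wX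
            rw [heq] at hXe
            have g1 : v2 (w Z1) ≠ m := by
              obtain ⟨r, hr⟩ := hcX.add_odd hcY
              refine v2_ne_of_mul (w Z1) hwZ1 m ⟨r, ?_⟩
              have : w Z1 = 2 ^ m * (cX + cY) := by
                rw [wZ1]
                calc w X + w Y = 2 ^ m * cX + 2 ^ m * cY := by rw [← hXe, ← hYe]
                  _ = 2 ^ m * (cX + cY) := by ring
              rw [this, hr, pow_succ]; ring
            have g2 : v2 (w Z2) = m := by
              have e : w Z2 = w X + (w Y + w Y') := hsum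
              rw [e]
              have := v2_add_lt (w X) (w Y + w Y') wX (m + 1) (by omega) ⟨c, hc⟩
              rw [this, heq]
            refine ⟨vv Z1, vv Y, vv X, vv X, ?_⟩
            intro s b k1 _ _
            right; left
            have f1 : vv X = vv Y := by rw [hvv, heq]
            have f2 : vv Z2 = vv Y := by rw [hvv, g2]
            have f3 : vv Z1 ≠ vv Y := by rw [Ne, hvv]; exact g1
            rw [lam_ne p vv s b Y hY, lam_ne p vv s b X hX, lam_ne p vv s b Z1 hZ1,
              lam_ne p vv s b Z2 h3, f1, f2]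
            exact ⟨rfl, rfl, fun h => k1 f3 (Sum.inl_injective h)⟩
          · -- larger valuation of X
            obtain ⟨g1, g2⟩ := big (v2_lt_iff (w X) wX m hgt)
            refine ⟨vv X, vv Y, vv Z2, vv Y, ?_⟩
            intro s b k1 k2 _
            right; right
            have f1 : vv Z1 = vv Y := by rw [hvv, g1]
            have f2 : vv Z2 ≠ vv Y := by rw [Ne, hvv]; exact g2
            have f3 : vv X ≠ vv Y := by rw [Ne, hvv, ← hm]; omega
            rw [lam_ne p vv s b Y hY, lam_ne p vv s b X hX, lam_ne p vv s b Z1 hZ1,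
              lam_ne p vv s b Z2 h3, f1]
            exact ⟨rfl, fun h => k1 f3 (Sum.inl_injective h), fun h => k2 f2 (Sum.inl_injective h)⟩
      · -- different valuations of the two steps
        refine ⟨vv Y, vv Y', vv X, vv X, ?_⟩
        intro s b k1 _ hlab
        have f1 : vv Y ≠ vv Y' := by rw [Ne, hvv]; exact hv
        rw [lam_ne p vv s b Y hY, lam_ne p vv s b Y' hY'] at hlab
        exact absurd (Sum.inl_injective hlab) (k1 f1)

end wild

end Pool.Agent.MP_8ad0a3_lc
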