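import Pool.Agent.MP_8ad0a3_lc.Defs

/-!
# General facts on CSP instances and the basic LP
-/

open Finset

namespace Pool.Agent.MP_8ad0a3_lc

attribute [instance] Inst.fin

namespace Inst

variable {S : Type} {k : ℕ} {F : Set ((Fin k → S) → Bool)}

theorem m_pos_real (I : Inst S k F) : (0 : ℝ) < I.m := by exact_mod_cast I.m_pos

theorem valOf_nonneg (I : Inst S k F) (τ : I.V → S) : 0 ≤ I.valOf τ := by
  unfold valOf
  refine div_nonneg (sum_nonneg ?_) I.m_pos_real.le
  intro i _
  split_ifs <;> norm_num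

theorem val_nonneg (I : Inst S k F) : 0 ≤ I.val := Real.iSup_nonneg (fun τ => I.valOf_nonneg τ)

theorem val_le (I : Inst S k F) (r : ℝ) (hr : 0 ≤ r) (h : ∀ τ, I.valOf τ ≤ r) : I.val ≤ r :=
  Real.iSup_le h hr

theorem valOf_le_val [Finite S] (I : Inst S k F) (τ : I.V → S) : I.valOf τ ≤ I.val := by
  unfold val
  exact le_ciSup (Set.finite_range _).bddAbove τ

/-- If a random assignment satisfies every constraint with probability at least `r` then the value
is at least `r`. -/
theorem le_val_of_sample [Finite S] (I : Inst S k F) {Ω : Type} [Fintype Ω] [Nonempty Ω] (r : ℝ)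
    (τ : Ω → I.V → S)
    (h : ∀ i, r * Fintype.card Ω ≤
      ∑ ω, if I.f i (fun j => τ ω (I.e i j)) = true then (1 : ℝ) else 0) : r ≤ I.val := by
  have hΩ : (0 : ℝ) < Fintype.card Ω := by exact_mod_cast Fintype.card_pos
  have hm := I.m_pos_real
  have h1 : r * Fintype.card Ω ≤ ∑ ω, I.valOf (τ ω) := by
    unfold valOf
    rw [← sum_div, sum_comm, le_div_iff₀ hm]
    have : ∑ i : Fin I.m, r * Fintype.card Ω ≤ ∑ i : Fin I.m, ∑ ω,
        (if I.f i (fun j => τ ω (I.e i j)) = true then (1 : ℝ) else 0) :=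
      sum_le_sum (fun i _ => h i)
    rw [sum_const, card_univ, Fintype.card_fin, nsmul_eq_mul] at this
    linarith
  have h2 : ∑ ω, I.valOf (τ ω) ≤ ∑ _ω : Ω, I.val := sum_le_sum (fun ω _ => I.valOf_le_val _)
  rw [sum_const, card_univ, nsmul_eq_mul] at h2
  have h3 : r * Fintype.card Ω ≤ Fintype.card Ω * I.val := h1.trans h2
  rw [mul_comm] at h3
  exact le_of_mul_le_mul_left h3 hΩ

variable [Fintype S]

open Classical in
theorem lpObj_le_one (I : Inst S k F) {x : I.V → S → ℝ} {z : Fin I.m → (Fin k → S) → ℝ}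
    (h : I.Feasible x z) : I.lpObj z ≤ 1 := by
  unfold lpObj
  rw [div_le_one I.m_pos_real]
  have : ∀ i ∈ (univ : Finset (Fin I.m)), (∑ a : Fin k → S,
      (if I.f i a = true then (1 : ℝ) else 0) * z i a) ≤ 1 := by
    intro i _
    refine le_of_le_of_eq ?_ (h.z_sum i)
    refine sum_le_sum ?_
    intro a _
    have := h.z_nonneg i a
    split_ifs
    · rw [one_mul]
    · rw [zero_mul]; exact this
  refine (sum_le_sum this).trans ?_
  rw [sum_const, card_univ, Fintype.card_fin, nsmul_eq_mul, mul_one]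

theorem bddAbove_lp (I : Inst S k F) :
    BddAbove {r : ℝ | ∃ x z, I.Feasible x z ∧ r = I.lpObj z} := by
  refine ⟨1, ?_⟩
  rintro r ⟨x, z, h, rfl⟩
  exact I.lpObj_le_one h

theorem lpObj_le_lpVal (I : Inst S k F) {x : I.V → S → ℝ} {z : Fin I.m → (Fin k → S) → ℝ}
    (h : I.Feasible x z) : I.lpObj z ≤ I.lpVal :=
  le_csSup I.bddAbove_lp ⟨x, z, h, rfl⟩

/-- The optimum of the basic LP is attained. -/
theorem exists_opt (I : Inst S k F) (h : 0 < I.lpVal) :
    ∃ x z, I.Feasible x z ∧ I.lpObj z = I.lpVal := by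
  classical
  set P : Set ((I.V → S → ℝ) × (Fin I.m → (Fin k → S) → ℝ)) :=
    {p | I.Feasible p.1 p.2} with hP
  have hne : P.Nonempty := by
    by_contra hcon
    rw [Set.not_nonempty_iff_eq_empty] at hcon
    have : {r : ℝ | ∃ x z, I.Feasible x z ∧ r = I.lpObj z} = ∅ := by
      ext r
      simp only [Set.mem_ofPred_eq, Set.mem_empty_iff_false, iff_false]
      rintro ⟨x, z, hf, -⟩
      have : (x, z) ∈ P := hf
      rw [hcon] at this
      exact this
    rw [lpVal, this, Real.sSup_empty] at h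
    exact lt_irrefl _ h
  have hclosed : IsClosed P := by
    have : P = {p | ∀ v σ, 0 ≤ p.1 v σ} ∩ {p | ∀ i a, 0 ≤ p.2 i a} ∩ {p | ∀ v, ∑ σ, p.1 v σ = 1} ∩
        {p | ∀ i, ∑ a, p.2 i a = 1} ∩
        {p | ∀ i j σ, (∑ a : Fin k → S, if a j = σ then p.2 i a else 0) = p.1 (I.e i j) σ} := by
      ext p
      constructor
      · intro hp
        exact ⟨⟨⟨⟨hp.x_nonneg, hp.z_nonneg⟩, hp.x_sum⟩, hp.z_sum⟩, hp.marg⟩
      · rintro ⟨⟨⟨⟨h1, h2⟩, h3⟩, h4⟩, h5⟩
        exact ⟨h1, h2, h3, h4, h5⟩
    rw [this]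
    refine IsClosed.inter (IsClosed.inter (IsClosed.inter (IsClosed.inter ?_ ?_) ?_) ?_) ?_
    · simp only [Set.ofPred_forall]
      refine isClosed_iInter (fun v => isClosed_iInter (fun σ => ?_))
      exact isClosed_le continuous_const (by fun_prop)
    · simp only [Set.ofPred_forall]
      refine isClosed_iInter (fun v => isClosed_iInter (fun σ => ?_))
      exact isClosed_le continuous_const (by fun_prop)
    · simp only [Set.ofPred_forall]
      refine isClosed_iInter (fun v => ?_)
      exact isClosed_eq (by fun_prop) continuous_const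
    · simp only [Set.ofPred_forall]
      refine isClosed_iInter (fun v => ?_)
      exact isClosed_eq (by fun_prop) continuous_const
    · simp only [Set.ofPred_forall]
      refine isClosed_iInter (fun i => isClosed_iInter (fun j => isClosed_iInter (fun σ => ?_)))
      refine isClosed_eq ?_ (by fun_prop)
      refine continuous_finsetSum _ (fun a _ => ?_)
      split_ifs
      · fun_prop
      · exact continuous_const
  have hsub : P ⊆ Set.Icc 0 1 := by
    intro p hp
    have hp' : I.Feasible p.1 p.2 := hp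
    refine ⟨⟨fun v σ => hp'.x_nonneg v σ, fun i a => hp'.z_nonneg i a⟩, ⟨fun v σ => ?_, fun i a => ?_⟩⟩
    · have := hp'.x_sum v
      have h1 := single_le_sum (f := fun σ => p.1 v σ) (fun σ _ => hp'.x_nonneg v σ) (mem_univ σ)
      simp only [Prod.fst_one, Pi.one_apply]
      linarith
    · have := hp'.z_sum i
      have h1 := single_le_sum (f := fun a => p.2 i a) (fun a _ => hp'.z_nonneg i a) (mem_univ a)
      simp only [Prod.snd_one, Pi.one_apply]
      linarith
  have hcomp : IsCompact P := IsCompact.of_isClosed_subset isCompact_Icc hclosed hsub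
  have hcont : Continuous (fun p : (I.V → S → ℝ) × (Fin I.m → (Fin k → S) → ℝ) => I.lpObj p.2) := by
    unfold lpObj
    fun_prop
  obtain ⟨p, hp, hmax⟩ := hcomp.exists_isMaxOn hne hcont.continuousOn
  refine ⟨p.1, p.2, hp, ?_⟩
  refine le_antisymm (I.lpObj_le_lpVal hp) ?_
  refine csSup_le ⟨_, p.1, p.2, hp, rfl⟩ ?_
  rintro r ⟨x, z, hf, rfl⟩
  exact hmax (show (x, z) ∈ P from hf)

open Classical in
/-- A value-one solution is supported on satisfying assignments. -/
theorem supp_of_one (I : Inst S k F) {x : I.V → S → ℝ} {z : Fin I.m → (Fin k → S) → ℝ}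
    (h : I.Feasible x z) (h1 : 1 ≤ I.lpObj z) (i : Fin I.m) (a : Fin k → S)
    (ha : I.f i a ≠ true) : z i a = 0 := by
  unfold lpObj at h1
  rw [le_div_iff₀ I.m_pos_real, one_mul] at h1
  have hle : ∀ i ∈ (univ : Finset (Fin I.m)), (∑ a : Fin k → S,
      (if I.f i a = true then (1 : ℝ) else 0) * z i a) ≤ 1 := by
    intro i _
    refine le_of_le_of_eq ?_ (h.z_sum i)
    refine sum_le_sum ?_
    intro a _
    have := h.z_nonneg i a
    split_ifs
    · rw [one_mul]
    · rw [zero_mul]; exact this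
  have hsum : ∑ i : Fin I.m, (1 : ℝ) ≤ ∑ i : Fin I.m, (∑ a : Fin k → S,
      (if I.f i a = true then (1 : ℝ) else 0) * z i a) := by
    rw [sum_const, card_univ, Fintype.card_fin, nsmul_eq_mul, mul_one]
    exact h1
  have heq : ∀ i ∈ (univ : Finset (Fin I.m)), (∑ a : Fin k → S,
      (if I.f i a = true then (1 : ℝ) else 0) * z i a) = 1 := by
    have := (sum_eq_sum_iff_of_le hle).1 (le_antisymm (sum_le_sum hle) hsum)
    exact this
  have hi := heq i (mem_univ i)
  have hle2 : ∀ a ∈ (univ : Finset (Fin k → S)),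
      (if I.f i a = true then (1 : ℝ) else 0) * z i a ≤ z i a := by
    intro a _
    have := h.z_nonneg i a
    split_ifs
    · rw [one_mul]
    · rw [zero_mul]; exact this
  have := (sum_eq_sum_iff_of_le hle2).1 (hi.trans (h.z_sum i).symm) a (mem_univ a)
  rw [if_neg ha, zero_mul] at this
  exact this.symm

open Classical in
/-- LP solutions from random experiments, one for each constraint. -/
theorem feasible_of_sample (I : Inst S k F) {Ω : Type} [Fintype Ω] [Nonempty Ω]
    (Φ : Fin I.m → Ω → (Fin k → S)) (x : I.V → S → ℝ) (hx : ∀ v σ, 0 ≤ x v σ)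
    (hs : ∀ v, ∑ σ, x v σ = 1)
    (hm : ∀ i j σ, (∑ ω, if Φ i ω j = σ then (1 : ℝ) else 0) = x (I.e i j) σ * Fintype.card Ω) :
    I.Feasible x (fun i a => (∑ ω, if Φ i ω = a then (1 : ℝ) else 0) / Fintype.card Ω) := by
  have hΩ : (0 : ℝ) < Fintype.card Ω := by exact_mod_cast Fintype.card_pos
  refine ⟨hx, ?_, hs, ?_, ?_⟩
  · intro i a
    refine div_nonneg (sum_nonneg ?_) hΩ.le
    intro ω _
    split_ifs <;> norm_num
  · intro i
    rw [← sum_div, sum_comm]
    simp only [sum_ite_eq, mem_univ, if_true]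
    rw [sum_const, card_univ, nsmul_eq_mul, mul_one, div_self hΩ.ne']
  · intro i j σ
    have h1 : (∑ a : Fin k → S, if a j = σ then
        (∑ ω, if Φ i ω = a then (1 : ℝ) else 0) / Fintype.card Ω else 0) =
        (∑ a : Fin k → S, ∑ ω, if (a j = σ ∧ Φ i ω = a) then (1 : ℝ) else 0) / Fintype.card Ω := by
      rw [sum_div]
      refine sum_congr rfl ?_
      intro a _
      by_cases ha : a j = σ
      · simp [ha]
      · simp [ha]
    rw [h1, sum_comm]
    have h2 : (∑ ω, ∑ a : Fin k → S, if (a j = σ ∧ Φ i ω = a) then (1 : ℝ) else 0) =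
        ∑ ω, if Φ i ω j = σ then (1 : ℝ) else 0 := by
      refine sum_congr rfl ?_
      intro ω _
      rw [sum_eq_single (Φ i ω)]
      · simp
      · intro b _ hb
        rw [if_neg]
        rintro ⟨-, h⟩
        exact hb h.symm
      · intro h
        exact absurd (mem_univ _) h
    rw [h2, hm, mul_div_assoc, div_self hΩ.ne', mul_one]

open Classical in
theorem le_lpVal_of_sample (I : Inst S k F) {Ω : Type} [Fintype Ω] [Nonempty Ω]
    (Φ : Fin I.m → Ω → (Fin k → S)) (x : I.V → S → ℝ) (hx : ∀ v σ, 0 ≤ x v σ)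
    (hs : ∀ v, ∑ σ, x v σ = 1)
    (hm : ∀ i j σ, (∑ ω, if Φ i ω j = σ then (1 : ℝ) else 0) = x (I.e i j) σ * Fintype.card Ω)
    (r : ℝ) (hr : ∀ i, r * Fintype.card Ω ≤ ∑ ω, if I.f i (Φ i ω) = true then (1 : ℝ) else 0) :
    r ≤ I.lpVal := by
  have hΩ : (0 : ℝ) < Fintype.card Ω := by exact_mod_cast Fintype.card_pos
  refine le_trans ?_ (I.lpObj_le_lpVal (I.feasible_of_sample Φ x hx hs hm))
  unfold lpObj
  rw [le_div_iff₀ I.m_pos_real]
  have h1 : ∀ i : Fin I.m, r ≤ ∑ a : Fin k → S, (if I.f i a = true then (1 : ℝ) else 0) *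
      ((∑ ω, if Φ i ω = a then (1 : ℝ) else 0) / Fintype.card Ω) := by
    intro i
    have h2 : (∑ a : Fin k → S, (if I.f i a = true then (1 : ℝ) else 0) *
      ((∑ ω, if Φ i ω = a then (1 : ℝ) else 0) / Fintype.card Ω)) =
      (∑ ω, if I.f i (Φ i ω) = true then (1 : ℝ) else 0) / Fintype.card Ω := by
      simp only [← mul_div_assoc]
      rw [← sum_div]
      congr 1
      simp only [mul_sum]
      rw [sum_comm]
      refine sum_congr rfl ?_
      intro ω _
      rw [sum_eq_single (Φ i ω)]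
      · simp
      · intro b _ hb
        have hb' : ¬ (Φ i ω = b) := fun h => hb h.symm
        simp only [hb', if_false, mul_zero]
      · intro h
        exact absurd (mem_univ _) h
    rw [h2, le_div_iff₀ hΩ]
    exact hr i
  have h3 := sum_le_sum (fun i (_ : i ∈ (univ : Finset (Fin I.m))) => h1 i)
  rw [sum_const, card_univ, Fintype.card_fin, nsmul_eq_mul] at h3
  linarith

/-- Integral solutions. -/
theorem valOf_le_lpVal (I : Inst S k F) (τ : I.V → S) (h : ∀ i, I.f i (fun j => τ (I.e i j)) = true) :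
    1 ≤ I.lpVal := by
  classical
  refine I.le_lpVal_of_sample (Ω := Unit) (fun i _ j => τ (I.e i j))
    (fun v σ => if τ v = σ then 1 else 0) ?_ ?_ ?_ 1 ?_
  · intro v σ
    split_ifs <;> norm_num
  · intro v
    simp
  · intro i j σ
    simp
  · intro i
    simp [h i]


section family

variable {ι V : Type} [Fintype ι] [Nonempty ι] [Fintype V]

/-- An instance from a finite family of constraints. -/
noncomputable def ofFamily (e : ι → Fin k → V) (he : ∀ i, Function.Injective (e i))
    (f : ι → (Fin k → S) → Bool) (hf : ∀ i, f i ∈ F) : Inst S k F where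
  V := V
  fin := inferInstance
  m := Fintype.card ι
  m_pos := Fintype.card_pos
  e := fun i => e ((Fintype.equivFin ι).symm i)
  e_inj := fun i => he _
  f := fun i => f ((Fintype.equivFin ι).symm i)
  f_mem := fun i => hf _

theorem valOf_ofFamily (e : ι → Fin k → V) (he : ∀ i, Function.Injective (e i))
    (f : ι → (Fin k → S) → Bool) (hf : ∀ i, f i ∈ F) (τ : V → S) :
    (ofFamily (F := F) e he f hf).valOf τ =
      (∑ i : ι, if f i (fun j => τ (e i j)) = true then (1 : ℝ) else 0) / Fintype.card ι := by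
  unfold valOf ofFamily
  simp only
  rw [Equiv.sum_comp (Fintype.equivFin ι).symm
    (fun i : ι => if f i (fun j => τ (e i j)) = true then (1 : ℝ) else 0)]

open Classical in
theorem le_lpVal_ofFamily (e : ι → Fin k → V) (he : ∀ i, Function.Injective (e i))
    (f : ι → (Fin k → S) → Bool) (hf : ∀ i, f i ∈ F) {Ω : Type} [Fintype Ω] [Nonempty Ω]
    (Φ : ι → Ω → (Fin k → S)) (x : V → S → ℝ) (hx : ∀ v σ, 0 ≤ x v σ)
    (hs : ∀ v, ∑ σ, x v σ = 1)
    (hm : ∀ i j σ, (∑ ω, if Φ i ω j = σ then (1 : ℝ) else 0) = x (e i j) σ * Fintype.card Ω)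
    (r : ℝ) (hr : ∀ i, r * Fintype.card Ω ≤ ∑ ω, if f i (Φ i ω) = true then (1 : ℝ) else 0) :
    r ≤ (ofFamily (F := F) e he f hf).lpVal :=
  (ofFamily (F := F) e he f hf).le_lpVal_of_sample (Ω := Ω)
    (fun i => Φ ((Fintype.equivFin ι).symm i)) x hx hs (fun i j σ => hm _ j σ) r
    (fun i => hr _)

end family

end Inst

end Pool.Agent.MP_8ad0a3_lc
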