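import Mathlib

/-!
# The label game on a grid (near-exact world)

For every labelling `F` of the naturals, a positive fraction of the triples `(x, m, e)`,
`16K ≤ x < 64K`, `K ≤ m < 32K`, `e ∈ {0,1}`, `x ≠ m`, violates the label condition `Qc`.
-/

open Finset

namespace Pool.Agent.MP_8ad0a3_lc

section labels

variable {Λ : Type} (F : ℕ → Λ)

/-- The label condition for the step `m` and the points `x`, `x + m`, `x + 2 m + e`. -/
def Qc (x m e : ℕ) : Prop :=
  (F x = F (x + m) ∧ F x = F (x + 2 * m + e) ∧ F x ≠ F m) ∨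
  (F x = F m ∧ F (x + 2 * m + e) = F m ∧ F (x + m) ≠ F m) ∨
  (F (x + m) = F m ∧ F x ≠ F m ∧ F (x + 2 * m + e) ≠ F m)

open Classical in
/-- number of `x` in `[a,b)` with `F x ≠ F (x + d)` -/
noncomputable def ne (a b d : ℕ) : ℕ := ((Ico a b).filter (fun x => F x ≠ F (x + d))).card

open Classical in
/-- number of `x` in `[a,b)` violating the label condition -/
noncomputable def bad (a b m e : ℕ) : ℕ := ((Ico a b).filter (fun x => ¬ Qc F x m e)).card

open Classical in
/-- The halving step for a fixed step `m`. -/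
theorem halving (a b b' m e : ℕ) (hb : b' + m ≤ b) :
    2 * ne F a b' (2 * m + e) ≤ ne F a b m + 3 * bad F a b m e := by
  set Ho : ℕ → Prop := fun x => F (x + m) = F m ∧ F x ≠ F m ∧ F (x + 2 * m + e) ≠ F m with hHo
  set He : ℕ → Prop := fun x => F x = F m ∧ F (x + 2 * m + e) = F m ∧ F (x + m) ≠ F m with hHe
  set nHo' := ((Ico a b').filter Ho).card with hnHo'
  set nHo := ((Ico a b).filter Ho).card with hnHo
  set nHe := ((Ico a b).filter He).card with hnHe
  have hsub : Ico a b' ⊆ Ico a b := Ico_subset_Ico_right (by omega)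
  -- claim 1
  have h1 : ne F a b' (2 * m + e) ≤ nHo' + bad F a b m e := by
    have : (Ico a b').filter (fun x => F x ≠ F (x + (2 * m + e))) ⊆
        (Ico a b').filter Ho ∪ (Ico a b).filter (fun x => ¬ Qc F x m e) := by
      intro x hx
      rw [mem_filter] at hx
      rw [mem_union, mem_filter, mem_filter]
      by_cases hq : Qc F x m e
      · left
        refine ⟨hx.1, ?_⟩
        have h2 := hx.2
        rw [← add_assoc] at h2
        rcases hq with h | h | h
        · exact absurd h.2.1 h2
        · exact absurd (h.1.trans h.2.1.symm) h2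
        · exact h
      · right
        exact ⟨hsub hx.1, hq⟩
    exact (card_le_card this).trans (card_union_le _ _)
  -- claim 2
  have h2 : nHo' ≤ nHe + bad F a b m e := by
    have hinj : Set.InjOn (fun x => x + m) ((Ico a b').filter Ho : Set ℕ) := by
      intro x _ y _ hxy
      simpa using hxy
    rw [hnHo', ← card_image_of_injOn hinj]
    have : ((Ico a b').filter Ho).image (fun x => x + m) ⊆
        (Ico a b).filter He ∪ (Ico a b).filter (fun x => ¬ Qc F x m e) := by
      intro x' hx'
      rw [mem_image] at hx'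
      obtain ⟨x, hx, rfl⟩ := hx'
      rw [mem_filter, mem_Ico] at hx
      rw [mem_union, mem_filter, mem_filter]
      have hmem : x + m ∈ Ico a b := by rw [mem_Ico]; omega
      by_cases hq : Qc F (x + m) m e
      · left
        refine ⟨hmem, ?_⟩
        have h3 : F (x + m) = F m := hx.2.1
        rcases hq with h | h | h
        · exact absurd h3 h.2.2
        · exact h
        · exact absurd h3 h.2.1
      · right
        exact ⟨hmem, hq⟩
    exact (card_le_card this).trans (card_union_le _ _)
  -- claim 3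
  have h3 : nHo + nHe ≤ ne F a b m := by
    rw [hnHo, hnHe, ← card_union_of_disjoint]
    · refine card_le_card ?_
      intro x hx
      rw [mem_union, mem_filter, mem_filter] at hx
      rw [mem_filter]
      rcases hx with ⟨h, h'⟩ | ⟨h, h'⟩
      · exact ⟨h, fun h5 => h'.2.1 (h5.trans h'.1)⟩
      · exact ⟨h, fun h5 => h'.2.2 (h5.symm.trans h'.1)⟩
    · rw [disjoint_filter]
      intro x _ h h'
      exact h.2.1 h'.1
  have h4 : nHo' ≤ nHo := card_le_card (filter_subset_filter _ hsub)
  omega

/-- Splitting a sum over `[2a, 2b)` into even and odd terms. -/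
theorem sum_even_odd (f : ℕ → ℕ) (a b : ℕ) (hab : a ≤ b) :
    ∑ d ∈ Ico (2 * a) (2 * b), f d = ∑ m ∈ Ico a b, (f (2 * m) + f (2 * m + 1)) := by
  induction b, hab using Nat.le_induction with
  | base => simp
  | succ n hn ih =>
    rw [sum_Ico_succ_top hn, ← ih]
    have h1 : 2 * (n + 1) = 2 * n + 1 + 1 := by ring
    rw [h1, sum_Ico_succ_top (by omega), sum_Ico_succ_top (by omega)]
    ring

/-- Total non-constancy at scale `M`. -/
noncomputable def Del (a b M : ℕ) : ℕ := ∑ m ∈ Ico M (2 * M), ne F a b m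

/-- Total loss at scale `M`. -/
noncomputable def Los (a b M : ℕ) : ℕ := ∑ m ∈ Ico M (2 * M), (bad F a b m 0 + bad F a b m 1)

theorem step (a b b' M : ℕ) (hb : b' + 2 * M ≤ b) :
    2 * Del F a b' (2 * M) ≤ 2 * Del F a b M + 3 * Los F a b M := by
  unfold Del Los
  rw [sum_even_odd (fun d => ne F a b' d) M (2 * M) (by omega)]
  rw [mul_sum, mul_sum, mul_sum, ← sum_add_distrib]
  refine sum_le_sum ?_
  intro m hm
  rw [mem_Ico] at hm
  have h0 := halving F a b b' m 0 (by omega)
  have h1 := halving F a b b' m 1 (by omega)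
  rw [add_zero] at h0
  omega

open Classical in
/-- number of `x ≠ m` in `[a,b)` violating the label condition -/
noncomputable def badn (a b m e : ℕ) : ℕ :=
  ((Ico a b).filter (fun x => x ≠ m ∧ ¬ Qc F x m e)).card

open Classical in
theorem bad_le_badn (a b b' m e : ℕ) (hm : m < a) (hb : b' ≤ b) :
    bad F a b' m e ≤ badn F a b m e := by
  unfold bad badn
  refine card_le_card ?_
  intro x hx
  rw [mem_filter, mem_Ico] at hx
  rw [mem_filter, mem_Ico]
  exact ⟨⟨hx.1.1, lt_of_lt_of_le hx.1.2 hb⟩, by omega, hx.2⟩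

open Classical in
theorem badn_mono (a b b' m e : ℕ) (hb : b' ≤ b) : badn F a b' m e ≤ badn F a b m e := by
  unfold badn
  exact card_le_card (filter_subset_filter _ (Ico_subset_Ico_right hb))

open Classical in
/-- The top scale: the label condition is incompatible with near constancy. -/
theorem top (Y : ℕ) :
    2 * (Y * Y) ≤ (∑ m ∈ Ico Y (2 * Y), (badn F Y (2 * Y) m 0 + badn F Y (2 * Y) m 1)) +
      2 * Y + 4 * Del F Y (2 * Y) Y := by
  have key : ∀ e : ℕ, Y * Y ≤ (∑ m ∈ Ico Y (2 * Y), badn F Y (2 * Y) m e) + Y +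
      2 * Del F Y (2 * Y) Y := by
    intro e
    have h1 : (∑ m ∈ Ico Y (2 * Y), ∑ x ∈ Ico Y (2 * Y), 1) = Y * Y := by
      simp only [sum_const, Nat.card_Ico, smul_eq_mul, mul_one]
      rw [two_mul, Nat.add_sub_cancel]
    have h2 : (∑ m ∈ Ico Y (2 * Y), ∑ x ∈ Ico Y (2 * Y), if x = m then 1 else 0) = Y := by
      have : ∀ m ∈ Ico Y (2 * Y), (∑ x ∈ Ico Y (2 * Y), if x = m then 1 else 0) = 1 := by
        intro m hm
        rw [sum_ite_eq' (Ico Y (2 * Y)) m (fun _ => 1), if_pos hm]
      rw [sum_congr rfl this]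
      simp only [sum_const, Nat.card_Ico, smul_eq_mul, mul_one]
      omega
    have h3 : (∑ m ∈ Ico Y (2 * Y), ∑ x ∈ Ico Y (2 * Y),
        if F x ≠ F (x + m) then 1 else 0) = Del F Y (2 * Y) Y := by
      unfold Del ne
      refine sum_congr rfl ?_
      intro m _
      rw [card_filter]
    have h4 : (∑ m ∈ Ico Y (2 * Y), ∑ x ∈ Ico Y (2 * Y),
        if F m ≠ F (x + m) then 1 else 0) = Del F Y (2 * Y) Y := by
      rw [sum_comm, ← h3]
      refine sum_congr rfl ?_
      intro m _
      refine sum_congr rfl ?_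
      intro x _
      rw [add_comm m x]
    have h5 : (∑ m ∈ Ico Y (2 * Y), ∑ x ∈ Ico Y (2 * Y),
        if (x ≠ m ∧ ¬ Qc F x m e) then 1 else 0) = ∑ m ∈ Ico Y (2 * Y), badn F Y (2 * Y) m e := by
      unfold badn
      refine sum_congr rfl ?_
      intro m _
      rw [card_filter]
    have h6 : (∑ m ∈ Ico Y (2 * Y), ∑ x ∈ Ico Y (2 * Y), 1) ≤
        (∑ m ∈ Ico Y (2 * Y), ∑ x ∈ Ico Y (2 * Y),
          ((if (x ≠ m ∧ ¬ Qc F x m e) then 1 else 0) + (if x = m then 1 else 0) +
          (if F x ≠ F (x + m) then 1 else 0) + (if F m ≠ F (x + m) then 1 else 0))) := by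
      refine sum_le_sum ?_
      intro m _
      refine sum_le_sum ?_
      intro x _
      by_cases hx : x = m
      · simp only [if_pos hx]; omega
      · by_cases ha : F x ≠ F (x + m)
        · simp only [if_pos ha]; omega
        · by_cases hb : F m ≠ F (x + m)
          · simp only [if_pos hb]; omega
          · rw [not_not] at ha hb
            have hq : ¬ Qc F x m e := by
              intro hq
              rcases hq with h | h | h
              · exact h.2.2 (ha.trans hb.symm)
              · exact h.2.2 hb.symm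
              · exact h.2.1 (ha.trans hb.symm)
            simp only [if_pos (And.intro hx hq)]; omega
    simp only [sum_add_distrib] at h6
    rw [h1, h2, h3, h4, h5] at h6
    omega
  have k0 := key 0
  have k1 := key 1
  rw [sum_add_distrib]
  omega

/-- Total loss. -/
noncomputable def Tot (K : ℕ) : ℕ :=
  ∑ m ∈ Ico K (32 * K), (badn F (16 * K) (64 * K) m 0 + badn F (16 * K) (64 * K) m 1)

open Classical in
theorem Del_zero (a b M : ℕ) : Del F a b M ≤ M * (b - a) := by
  unfold Del
  have : ∀ m ∈ Ico M (2 * M), ne F a b m ≤ b - a := by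
    intro m _
    unfold ne
    refine (card_filter_le _ _).trans ?_
    rw [Nat.card_Ico]
  refine (sum_le_sum this).trans ?_
  rw [sum_const, Nat.card_Ico, smul_eq_mul, two_mul, Nat.add_sub_cancel]

theorem Los_le (a b b' M : ℕ) (hM : 2 * M ≤ a) (hb : b' ≤ b) :
    Los F a b' M ≤ ∑ m ∈ Ico M (2 * M), (badn F a b m 0 + badn F a b m 1) := by
  unfold Los
  refine sum_le_sum ?_
  intro m hm
  rw [mem_Ico] at hm
  exact Nat.add_le_add (bad_le_badn F a b b' m 0 (by omega) hb)
    (bad_le_badn F a b b' m 1 (by omega) hb)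

/-- The main estimate of the label game. -/
theorem tot_lower (K : ℕ) : 328 * (K * K) ≤ 6 * Tot F K + 32 * K := by
  -- the four halving steps
  have s0 := step F (16 * K) (62 * K) (60 * K) K (by omega)
  have s1 := step F (16 * K) (60 * K) (56 * K) (2 * K) (by omega)
  have s2 := step F (16 * K) (56 * K) (48 * K) (4 * K) (by omega)
  have s3 := step F (16 * K) (48 * K) (32 * K) (8 * K) (by omega)
  have d0 := Del_zero F (16 * K) (62 * K) K
  have t0 := top F (16 * K)
  have e1 : 2 * (2 * K) = 4 * K := by ring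
  have e2 : 2 * (4 * K) = 8 * K := by ring
  have e3 : 2 * (8 * K) = 16 * K := by ring
  have e4 : 2 * (16 * K) = 32 * K := by ring
  rw [e1] at s1
  rw [e2] at s2
  rw [e3] at s3
  rw [e4] at t0
  have l0 := Los_le F (16 * K) (64 * K) (62 * K) K (by omega) (by omega)
  have l1 := Los_le F (16 * K) (64 * K) (60 * K) (2 * K) (by omega) (by omega)
  have l2 := Los_le F (16 * K) (64 * K) (56 * K) (4 * K) (by omega) (by omega)
  have l3 := Los_le F (16 * K) (64 * K) (48 * K) (8 * K) (by omega) (by omega)
  rw [e1] at l1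
  rw [e2] at l2
  rw [e3] at l3
  have l4 : (∑ m ∈ Ico (16 * K) (32 * K), (badn F (16 * K) (32 * K) m 0 +
      badn F (16 * K) (32 * K) m 1)) ≤ ∑ m ∈ Ico (16 * K) (32 * K),
      (badn F (16 * K) (64 * K) m 0 + badn F (16 * K) (64 * K) m 1) := by
    refine sum_le_sum ?_
    intro m _
    exact Nat.add_le_add (badn_mono F _ _ _ m 0 (by omega)) (badn_mono F _ _ _ m 1 (by omega))
  have hsplit : Tot F K =
      (∑ m ∈ Ico K (2 * K), (badn F (16 * K) (64 * K) m 0 + badn F (16 * K) (64 * K) m 1)) +
      (∑ m ∈ Ico (2 * K) (4 * K), (badn F (16 * K) (64 * K) m 0 + badn F (16 * K) (64 * K) m 1)) +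
      (∑ m ∈ Ico (4 * K) (8 * K), (badn F (16 * K) (64 * K) m 0 + badn F (16 * K) (64 * K) m 1)) +
      (∑ m ∈ Ico (8 * K) (16 * K), (badn F (16 * K) (64 * K) m 0 + badn F (16 * K) (64 * K) m 1)) +
      (∑ m ∈ Ico (16 * K) (32 * K), (badn F (16 * K) (64 * K) m 0 +
        badn F (16 * K) (64 * K) m 1)) := by
    unfold Tot
    rw [sum_Ico_consecutive _ (by omega) (by omega), sum_Ico_consecutive _ (by omega) (by omega),
      sum_Ico_consecutive _ (by omega) (by omega), sum_Ico_consecutive _ (by omega) (by omega)]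
  have h46 : 62 * K - 16 * K = 46 * K := by omega
  rw [h46] at d0
  have d0' : K * (46 * K) = 46 * (K * K) := by ring
  have t0' : 16 * K * (16 * K) = 256 * (K * K) := by ring
  rw [d0'] at d0
  rw [t0'] at t0
  set A := K * K
  omega

end labels

end Pool.Agent.MP_8ad0a3_lc
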