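import Pool.Agent.MP_8ad0a3_lc.Exact

/-!
# Instances of LP value one have value at least `1/2 - 2/L`
-/

open Finset

namespace Pool.Agent.MP_8ad0a3_lc

variable {l C L : ℕ} [NeZero l] [NeZero C] [NeZero L]

section sums

variable {W V : Type} [Fintype W] [Fintype V] [DecidableEq W] [DecidableEq V]

theorem card_om : (Fintype.card (Bool × (W → ZMod L) × (V → ZMod 2)) : ℝ) =
    2 * (Fintype.card (W → ZMod L) * Fintype.card (V → ZMod 2)) := by
  rw [Fintype.card_prod, Fintype.card_prod, Fintype.card_bool]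
  push_cast
  ring

theorem sum_mode (b : Bool) : (∑ ω : Bool × (W → ZMod L) × (V → ZMod 2),
    if ω.1 = b then (1 : ℝ) else 0) =
    Fintype.card (Bool × (W → ZMod L) × (V → ZMod 2)) / 2 := by
  rw [sum_first (fun x : Bool => if x = b then (1 : ℝ) else 0), card_om]
  simp

open Classical in
theorem sum_hash (α β : W) : (∑ ω : Bool × (W → ZMod L) × (V → ZMod 2),
    if (α ≠ β ∧ ω.2.1 α = ω.2.1 β) then (1 : ℝ) else 0) ≤
    Fintype.card (Bool × (W → ZMod L) × (V → ZMod 2)) / L := by
  have hL : (0 : ℝ) < L := by exact_mod_cast Nat.pos_of_ne_zero (NeZero.ne L)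
  by_cases h : α = β
  · have : (∑ ω : Bool × (W → ZMod L) × (V → ZMod 2),
      if (α ≠ β ∧ ω.2.1 α = ω.2.1 β) then (1 : ℝ) else 0) = 0 := by
      refine sum_eq_zero ?_
      intro ω _
      rw [if_neg (fun h' => h'.1 h)]
    rw [this]
    positivity
  · have h1 := sum_second (α := Bool) (β := W → ZMod L) (γ := V → ZMod 2)
      (fun s => if (α ≠ β ∧ s α = s β) then (1 : ℝ) else 0)
    rw [h1, card_om]
    have h2 := sum_pair (A := ZMod L) α β h
    rw [ZMod.card] at h2
    have h3 : (∑ s : W → ZMod L, if (α ≠ β ∧ s α = s β) then (1 : ℝ) else 0) =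
        ∑ s : W → ZMod L, if s α = s β then (1 : ℝ) else 0 := by
      refine sum_congr rfl ?_
      intro s _
      by_cases hs : s α = s β
      · rw [if_pos hs, if_pos ⟨h, hs⟩]
      · rw [if_neg hs, if_neg (fun h' => hs h'.2)]
    rw [h3, Fintype.card_bool, ← h2]
    rw [le_div_iff₀ hL]
    refine le_of_eq ?_
    push_cast
    ring

open Classical in
theorem sum_zero (Y Y' : V) (h : Y ≠ Y') : (∑ ω : Bool × (W → ZMod L) × (V → ZMod 2),
    if ω.2.2 Y = ω.2.2 Y' then (1 : ℝ) else 0) =
    Fintype.card (Bool × (W → ZMod L) × (V → ZMod 2)) / 2 := by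
  have h1 := sum_third (α := Bool) (β := W → ZMod L) (γ := V → ZMod 2)
      (fun s => if s Y = s Y' then (1 : ℝ) else 0)
  rw [h1, card_om]
  have h2 := sum_pair (A := ZMod 2) Y Y' h
  rw [ZMod.card] at h2
  rw [Fintype.card_bool, ← h2]
  push_cast
  ring

end sums

open Classical in
/-- Every instance of LP value one has value at least `1/2 - 2/L`. -/
theorem exact_lower (I : Inst (Sym C L) (5 + l) (Fam l C L)) (h : 1 ≤ I.lpVal) :
    (1 / 2 - 2 / L : ℝ) ≤ I.val := by
  have hL : (0 : ℝ) < L := by exact_mod_cast Nat.pos_of_ne_zero (NeZero.ne L)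
  obtain ⟨x, z, hf, ho⟩ := I.exists_opt (by linarith)
  have hs : ∀ i a, I.f i a ≠ true → z i a = 0 := I.supp_of_one hf (by rw [ho]; exact h)
  set β : Sym C L → Bool := Prod.fst with hβ
  set p : I.V → ℝ := pos β x with hp
  have hp0 : ∀ v, 0 ≤ p v := pos_nonneg β x hf.x_nonneg
  obtain ⟨w, hw0, hweq, hwadd⟩ := exists_int p
  set B : ℕ := ∑ v, v2 (w v) with hB
  have hBv : ∀ v, v2 (w v) < B + 1 := fun v =>
    Nat.lt_succ_of_le (single_le_sum (f := fun v => v2 (w v)) (fun _ _ => Nat.zero_le _)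
      (mem_univ v))
  set vv : I.V → Fin (B + 1) := fun v => ⟨v2 (w v), hBv v⟩ with hvvd
  have hvv : ∀ u v, vv u = vv v ↔ v2 (w u) = v2 (w v) := by
    intro u v
    simp [hvvd]
  set τ : (Bool × (Fin (B + 1) → ZMod L) × (I.V → ZMod 2)) → I.V → Sym C L := fun ω v =>
    ((ω.1 && decide (p v ≠ 0)), 0, lam p vv ω.2.1 ω.2.2 v) with hτ
  have τ1 : ∀ ω v, ω.1 = false → (τ ω v).1 = false := by
    intro ω v hω
    simp [hτ, hω]
  have τ0 : ∀ ω v, p v = 0 → (τ ω v).1 = false := by
    intro ω v hv
    simp [hτ, hv]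
  have τ2 : ∀ ω v, ω.1 = true → p v ≠ 0 → (τ ω v).1 = true := by
    intro ω v hω hv
    simp [hτ, hω, hv]
  set N : ℝ := ((Fintype.card (Bool × (Fin (B + 1) → ZMod L) × (I.V → ZMod 2)) : ℕ) : ℝ) with hN
  have hN0 : 0 ≤ N := by rw [hN]; positivity
  refine I.le_val_of_sample (1 / 2 - 2 / L) τ ?_
  intro i
  rw [← hN]
  have hNL : 0 ≤ N / L := by positivity
  have htarget : (1 / 2 - 2 / L) * N = N / 2 - N / L - N / L := by ring
  rcases I.f_mem i with hG | ⟨π, hE⟩ | ⟨π, hQ⟩
  · -- disjunction
    have hfi : ∀ a, I.f i a = true ↔ PG a := by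
      intro a; rw [hG]; simp [bG]
    obtain ⟨j, hj⟩ := pos_exists_of I β hf i (hs i) (fun j : Fin l => Fin.natAdd 5 j) (by
      intro a ha
      exact (hfi a).1 ha)
    have hle : (∑ ω : Bool × (Fin (B + 1) → ZMod L) × (I.V → ZMod 2),
        if ω.1 = true then (1 : ℝ) else 0) ≤
        ∑ ω, if I.f i (fun j => τ ω (I.e i j)) = true then (1 : ℝ) else 0 := by
      refine sum_le_sum ?_
      intro ω _
      by_cases hω : ω.1 = true
      · rw [if_pos hω, if_pos]
        rw [hfi]
        exact ⟨j, τ2 ω _ hω hj⟩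
      · rw [if_neg hω]
        split_ifs <;> norm_num
    rw [sum_mode] at hle
    rw [htarget]
    linarith
  · -- equality
    have hfi : ∀ a, I.f i a = true ↔ PE π a := by
      intro a; rw [hE]; simp [bE]
    set Y := I.e i (Fin.castAdd l 0) with hY
    set Y' := I.e i (Fin.castAdd l 1) with hY'
    have hYY' : Y ≠ Y' := by
      intro h5
      have := I.e_inj i h5
      have h6 : (0 : Fin 5) = 1 := Fin.castAdd_injective 5 l this
      exact absurd h6 (by decide)
    have e1 : p Y = p Y' := by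
      refine le_antisymm ?_ ?_
      · refine pos_le_of I β hf i (hs i) _ _ ?_
        intro a ha h1
        rcases (hfi a).1 ha with h2 | h2
        · have h3 : U a 0 = true := h1
          rw [h2.1] at h3
          exact absurd h3 (by decide)
        · exact h2.2.1
      · refine pos_le_of I β hf i (hs i) _ _ ?_
        intro a ha h1
        rcases (hfi a).1 ha with h2 | h2
        · have h3 : U a 1 = true := h1
          rw [h2.2.1] at h3
          exact absurd h3 (by decide)
        · exact h2.1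
    have et : ∀ j : Fin l, p (I.e i (Fin.natAdd 5 j)) ≤ p Y := by
      intro j
      refine pos_le_of I β hf i (hs i) _ _ ?_
      intro a ha h1
      rcases (hfi a).1 ha with h2 | h2
      · have h3 : Tb a j = true := h1
        rw [h2.2.2.1] at h3
        exact absurd h3 (by decide)
      · exact h2.1
    by_cases hpY : p Y = 0
    · have hpY' : p Y' = 0 := by rw [← e1]; exact hpY
      have hle : (∑ ω : Bool × (Fin (B + 1) → ZMod L) × (I.V → ZMod 2),
          if ω.2.2 Y = ω.2.2 Y' then (1 : ℝ) else 0) ≤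
          ∑ ω, if I.f i (fun j => τ ω (I.e i j)) = true then (1 : ℝ) else 0 := by
        refine sum_le_sum ?_
        intro ω _
        by_cases hω : ω.2.2 Y = ω.2.2 Y'
        · rw [if_pos hω, if_pos]
          rw [hfi]
          left
          refine ⟨τ0 ω _ hpY, τ0 ω _ hpY', fun j => τ0 ω _ ?_, ?_⟩
          · exact le_antisymm ((et j).trans hpY.le) (hp0 _)
          · change lam p vv ω.2.1 ω.2.2 Y = lam p vv ω.2.1 ω.2.2 Y'
            rw [lam_zero _ _ _ _ _ hpY, lam_zero _ _ _ _ _ hpY', hω]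
        · rw [if_neg hω]
          split_ifs <;> norm_num
      rw [sum_zero Y Y' hYY'] at hle
      rw [htarget]
      linarith
    · have hle : (∑ ω : Bool × (Fin (B + 1) → ZMod L) × (I.V → ZMod 2),
          if ω.1 = false then (1 : ℝ) else 0) ≤
          ∑ ω, if I.f i (fun j => τ ω (I.e i j)) = true then (1 : ℝ) else 0 := by
        refine sum_le_sum ?_
        intro ω _
        by_cases hω : ω.1 = false
        · rw [if_pos hω, if_pos]
          rw [hfi]
          left
          refine ⟨τ1 ω _ hω, τ1 ω _ hω, fun j => τ1 ω _ hω, ?_⟩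
          have hpY' : p Y' ≠ 0 := by rw [← e1]; exact hpY
          change lam p vv ω.2.1 ω.2.2 Y = lam p vv ω.2.1 ω.2.2 Y'
          rw [lam_ne _ _ _ _ _ hpY, lam_ne _ _ _ _ _ hpY']
          have : vv Y = vv Y' := by rw [hvv, hweq _ _ e1]
          rw [this]
        · rw [if_neg hω]
          split_ifs <;> norm_num
      rw [sum_mode] at hle
      rw [htarget]
      linarith
  · -- sums
    have hfi : ∀ a, I.f i a = true ↔ PQ π a := by
      intro a; rw [hQ]; simp [bQ]
    set Y := I.e i (Fin.castAdd l 0) with hY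
    set Y' := I.e i (Fin.castAdd l 1) with hY'
    set X := I.e i (Fin.castAdd l 2) with hX
    set Z1 := I.e i (Fin.castAdd l 3) with hZ1
    set Z2 := I.e i (Fin.castAdd l 4) with hZ2
    have hYY' : Y ≠ Y' := by
      intro h5
      have := I.e_inj i h5
      have h6 : (0 : Fin 5) = 1 := Fin.castAdd_injective 5 l this
      exact absurd h6 (by decide)
    have e1 : p Z1 = p X + p Y := by
      refine pos_add_of I β hf i (hs i) _ _ _ ?_
      intro a ha
      change (U a 3 = true ↔ (U a 2 = true ∨ U a 0 = true)) ∧ ¬ (U a 2 = true ∧ U a 0 = true)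
      rcases (hfi a).1 ha with h2 | ⟨h2 | h2 | h2, -⟩
      · rw [h2.1 0, h2.1 2, h2.1 3]; simp
      · obtain ⟨g0, g1, g2, g3, g4⟩ := h2
        rw [g0, g2, g3]; simp
      · obtain ⟨g0, g1, g2, g3, g4⟩ := h2
        rw [g0, g2, g3]; simp
      · obtain ⟨g0, g1, g2, g3, g4⟩ := h2
        rw [g0, g2, g3]; simp
    have e2 : p Z2 = p Z1 + p Y' := by
      refine pos_add_of I β hf i (hs i) _ _ _ ?_
      intro a ha
      change (U a 4 = true ↔ (U a 3 = true ∨ U a 1 = true)) ∧ ¬ (U a 3 = true ∧ U a 1 = true)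
      rcases (hfi a).1 ha with h2 | ⟨h2 | h2 | h2, -⟩
      · rw [h2.1 1, h2.1 3, h2.1 4]; simp
      · obtain ⟨g0, g1, g2, g3, g4⟩ := h2
        rw [g1, g3, g4]; simp
      · obtain ⟨g0, g1, g2, g3, g4⟩ := h2
        rw [g1, g3, g4]; simp
      · obtain ⟨g0, g1, g2, g3, g4⟩ := h2
        rw [g1, g3, g4]; simp
    have et : ∀ j : Fin l, p (I.e i (Fin.natAdd 5 j)) ≤ p Z2 := by
      intro j
      refine pos_le_of I β hf i (hs i) _ _ ?_
      intro a ha h1
      rcases (hfi a).1 ha with h2 | ⟨h2 | h2 | h2, -⟩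
      · have h3 : Tb a j = true := h1
        rw [h2.2.1] at h3
        exact absurd h3 (by decide)
      · exact h2.2.2.2.2
      · exact h2.2.2.2.2
      · exact h2.2.2.2.2
    by_cases hpZ : p Z2 = 0
    · have nY := hp0 Y
      have nY' := hp0 Y'
      have nX := hp0 X
      have nZ1 := hp0 Z1
      have zZ1 : p Z1 = 0 := by linarith
      have zY' : p Y' = 0 := by linarith
      have zX : p X = 0 := by linarith
      have zY : p Y = 0 := by linarith
      have hle : (∑ ω : Bool × (Fin (B + 1) → ZMod L) × (I.V → ZMod 2),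
          (1 - if ω.2.2 Y = ω.2.2 Y' then (1 : ℝ) else 0)) ≤
          ∑ ω, if I.f i (fun j => τ ω (I.e i j)) = true then (1 : ℝ) else 0 := by
        refine sum_le_sum ?_
        intro ω _
        by_cases hω : ω.2.2 Y = ω.2.2 Y'
        · rw [if_pos hω, sub_self]
          split_ifs <;> norm_num
        · rw [if_neg hω, if_pos, sub_zero]
          rw [hfi]
          left
          refine ⟨?_, fun j => τ0 ω _ (le_antisymm ((et j).trans hpZ.le) (hp0 _)), ?_⟩
          · intro q
            fin_cases q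
            · exact τ0 ω _ zY
            · exact τ0 ω _ zY'
            · exact τ0 ω _ zX
            · exact τ0 ω _ zZ1
            · exact τ0 ω _ hpZ
          · intro hlab
            have h7 : lam p vv ω.2.1 ω.2.2 Y = lam p vv ω.2.1 ω.2.2 Y' := hlab
            rw [lam_zero _ _ _ _ _ zY, lam_zero _ _ _ _ _ zY'] at h7
            exact absurd (Sum.inr_injective h7) hω
      rw [sum_sub_distrib, sum_zero Y Y' hYY', sum_const, card_univ, nsmul_eq_mul, mul_one,
        ← hN] at hle
      rw [htarget]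
      linarith
    · obtain ⟨α1, β1, α2, β2, hq⟩ := q3_exact (A := ZMod L) (B := ZMod 2) p hp0 w hw0 hweq hwadd
        vv hvv Y Y' X Z1 Z2 e1 e2 hpZ
      have hle : (∑ ω : Bool × (Fin (B + 1) → ZMod L) × (I.V → ZMod 2),
          ((if ω.1 = false then (1 : ℝ) else 0) -
          (if (α1 ≠ β1 ∧ ω.2.1 α1 = ω.2.1 β1) then (1 : ℝ) else 0) -
          (if (α2 ≠ β2 ∧ ω.2.1 α2 = ω.2.1 β2) then (1 : ℝ) else 0))) ≤
          ∑ ω, if I.f i (fun j => τ ω (I.e i j)) = true then (1 : ℝ) else 0 := by
        refine sum_le_sum ?_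
        intro ω _
        have hnn : (0 : ℝ) ≤ if I.f i (fun j => τ ω (I.e i j)) = true then (1 : ℝ) else 0 := by
          split_ifs <;> norm_num
        by_cases hω : ω.1 = false
        · by_cases hc1 : (α1 ≠ β1 ∧ ω.2.1 α1 = ω.2.1 β1)
          · rw [if_pos hω, if_pos hc1]
            have : (0 : ℝ) ≤ if (α2 ≠ β2 ∧ ω.2.1 α2 = ω.2.1 β2) then (1 : ℝ) else 0 := by
              split_ifs <;> norm_num
            linarith
          · by_cases hc2 : (α2 ≠ β2 ∧ ω.2.1 α2 = ω.2.1 β2)
            · rw [if_pos hω, if_neg hc1, if_pos hc2]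
              linarith
            · have hsat : I.f i (fun j => τ ω (I.e i j)) = true := by
                rw [hfi]
                left
                refine ⟨fun q => τ1 ω _ hω, fun j => τ1 ω _ hω, ?_⟩
                exact hq ω.2.1 ω.2.2 (fun h8 h9 => hc1 ⟨h8, h9⟩) (fun h8 h9 => hc2 ⟨h8, h9⟩)
              rw [if_pos hsat, if_pos hω, if_neg hc1, if_neg hc2]
              norm_num
        · rw [if_neg hω]
          have a1 : (0 : ℝ) ≤ if (α1 ≠ β1 ∧ ω.2.1 α1 = ω.2.1 β1) then (1 : ℝ) else 0 := by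
            split_ifs <;> norm_num
          have a2 : (0 : ℝ) ≤ if (α2 ≠ β2 ∧ ω.2.1 α2 = ω.2.1 β2) then (1 : ℝ) else 0 := by
            split_ifs <;> norm_num
          linarith
      rw [sum_sub_distrib, sum_sub_distrib, sum_mode] at hle
      have b1 := sum_hash (L := L) (V := I.V) α1 β1
      have b2 := sum_hash (L := L) (V := I.V) α2 β2
      rw [htarget]
      linarith

end Pool.Agent.MP_8ad0a3_lc
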