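import Pool.Agent.MP_8ad0a3_lc.General
import Pool.Agent.MP_8ad0a3_lc.Preds

/-!
# Marginals of the LP solution of the near-exact instances
-/

open Finset

namespace Pool.Agent.MP_8ad0a3_lc

variable {N C L : ℕ} [NeZero N] [NeZero C] [NeZero L]

/-- the LP marginal of a variable of position `s / N` -/
noncomputable def xs (N C : ℕ) {L : ℕ} (s : ℕ) (σ : Sym C L) : ℝ :=
  match σ.2.2 with
  | Sum.inl _ => 0
  | Sum.inr _ => (if σ.1 = true then (s : ℝ) else (N : ℝ) - s) / (N * C * 2)

theorem xs_nonneg (s : ℕ) (hs : s ≤ N) (σ : Sym C L) : 0 ≤ xs N C s σ := by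
  have h : (s : ℝ) ≤ N := by exact_mod_cast hs
  unfold xs
  split
  · exact le_rfl
  · refine div_nonneg ?_ (by positivity)
    split_ifs
    · positivity
    · linarith

theorem xs_sum (s : ℕ) : ∑ σ : Sym C L, xs N C s σ = 1 := by
  have hN : (N : ℝ) ≠ 0 := by exact_mod_cast NeZero.ne N
  have hC : (C : ℝ) ≠ 0 := by exact_mod_cast NeZero.ne C
  unfold Sym
  rw [Fintype.sum_prod_type]
  simp only [Fintype.sum_prod_type, Fintype.sum_sum_type, Fintype.sum_bool, xs]
  simp only [sum_const, card_univ, ZMod.card, nsmul_eq_mul]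
  simp
  field_simp
  ring

theorem sum_three {α β γ : Type} [Fintype α] [Fintype β] [Fintype γ] (f : α → ℝ) (g : β → ℝ)
    (h : γ → ℝ) : ∑ ω : α × β × γ, f ω.1 * (g ω.2.1 * h ω.2.2) =
      (∑ a, f a) * ((∑ b, g b) * (∑ c, h c)) := by
  rw [Fintype.sum_prod_type]
  simp only [Fintype.sum_prod_type]
  simp only [← mul_sum, ← sum_mul]

theorem count_interval (lo hi : ℕ) (h1 : lo ≤ hi) (h2 : hi ≤ N) (u : Bool) :
    (∑ r : Fin N, if decide (lo ≤ r.val ∧ r.val < hi) = u then (1 : ℝ) else 0) =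
      if u = true then ((hi - lo : ℕ) : ℝ) else (N : ℝ) - ((hi - lo : ℕ) : ℝ) := by
  have key : (∑ r : Fin N, if (lo ≤ r.val ∧ r.val < hi) then (1 : ℝ) else 0) =
      ((hi - lo : ℕ) : ℝ) := by
    rw [Fin.sum_univ_eq_sum_range (fun r => if (lo ≤ r ∧ r < hi) then (1 : ℝ) else 0) N]
    rw [sum_boole]
    congr 1
    rw [← Nat.card_Ico]
    congr 1
    ext r
    rw [mem_filter, mem_range, mem_Ico]
    omega
  cases u
  · have : (∑ r : Fin N, if decide (lo ≤ r.val ∧ r.val < hi) = false then (1 : ℝ) else 0) =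
        ∑ r : Fin N, (1 - if (lo ≤ r.val ∧ r.val < hi) then (1 : ℝ) else 0) := by
      refine sum_congr rfl ?_
      intro r _
      by_cases h : (lo ≤ r.val ∧ r.val < hi)
      · rw [if_pos h, if_neg (by simp [h])]; norm_num
      · rw [if_neg h, if_pos (by simpa using h)]; norm_num
    rw [this, sum_sub_distrib, key]
    simp
  · simp only [decide_eq_true_eq, if_true]
    exact key

open Classical in
theorem count_perm {α : Type} [Fintype α] (g : Equiv.Perm α) (c0 : α) :
    (∑ c : α, if g c = c0 then (1 : ℝ) else 0) = 1 := by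
  rw [sum_eq_single (g.symm c0)]
  · simp
  · intro c _ hc
    rw [if_neg]
    intro h
    apply hc
    rw [← h]; simp
  · intro h
    exact absurd (mem_univ _) h

open Classical in
theorem marg_count (lo hi : ℕ) (h1 : lo ≤ hi) (h2 : hi ≤ N) (g : Equiv.Perm (ZMod C))
    (h : Equiv.Perm (ZMod 2)) (σ : Sym C L) (Φ : Fin N × ZMod C × ZMod 2 → Sym C L)
    (hΦ : ∀ ω, Φ ω = (decide (lo ≤ ω.1.val ∧ ω.1.val < hi), g ω.2.1, Sum.inr (h ω.2.2))) :
    (∑ ω : Fin N × ZMod C × ZMod 2, @ite ℝ (Φ ω = σ) (Classical.propDecidable _) (1 : ℝ) 0) =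
      xs N C (hi - lo) σ * Fintype.card (Fin N × ZMod C × ZMod 2) := by
  have hN : (N : ℝ) ≠ 0 := by exact_mod_cast NeZero.ne N
  have hC : (C : ℝ) ≠ 0 := by exact_mod_cast NeZero.ne C
  have hcard : (Fintype.card (Fin N × ZMod C × ZMod 2) : ℝ) = N * C * 2 := by
    rw [Fintype.card_prod, Fintype.card_prod, Fintype.card_fin, ZMod.card, ZMod.card]
    push_cast
    ring
  obtain ⟨u, c0, lb⟩ := σ
  rcases lb with b0 | b0
  · have : ∀ ω : Fin N × ZMod C × ZMod 2,
        @ite ℝ (Φ ω = (u, c0, Sum.inl b0)) (Classical.propDecidable _) (1 : ℝ) 0 = 0 := by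
      intro ω
      rw [if_neg]
      rw [hΦ]
      intro h5
      simp at h5
    rw [sum_congr rfl (fun ω _ => this ω)]
    simp [xs]
  · have : ∀ ω : Fin N × ZMod C × ZMod 2,
        @ite ℝ (Φ ω = (u, c0, Sum.inr b0)) (Classical.propDecidable _) (1 : ℝ) 0 =
        (if decide (lo ≤ ω.1.val ∧ ω.1.val < hi) = u then (1 : ℝ) else 0) *
        ((if g ω.2.1 = c0 then (1 : ℝ) else 0) * (if h ω.2.2 = b0 then (1 : ℝ) else 0)) := by
      intro ω
      by_cases k1 : decide (lo ≤ ω.1.val ∧ ω.1.val < hi) = u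
      · by_cases k2 : g ω.2.1 = c0
        · by_cases k3 : h ω.2.2 = b0
          · rw [if_pos k1, if_pos k2, if_pos k3, if_pos]
            · norm_num
            · rw [hΦ, k1, k2, k3]
          · rw [if_pos k1, if_pos k2, if_neg k3, if_neg]
            · norm_num
            · rw [hΦ]
              intro h5
              rw [Prod.mk.injEq, Prod.mk.injEq] at h5
              exact k3 (Sum.inr_injective h5.2.2)
        · rw [if_pos k1, if_neg k2, if_neg]
          · norm_num
          · rw [hΦ]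
            intro h5
            rw [Prod.mk.injEq, Prod.mk.injEq] at h5
            exact k2 h5.2.1
      · rw [if_neg k1, if_neg]
        · norm_num
        · rw [hΦ]
          intro h5
          rw [Prod.mk.injEq, Prod.mk.injEq] at h5
          exact k1 h5.1
    rw [sum_congr rfl (fun ω _ => this ω),
      sum_three (fun r : Fin N => if decide (lo ≤ r.val ∧ r.val < hi) = u then (1 : ℝ) else 0)
        (fun c : ZMod C => if g c = c0 then (1 : ℝ) else 0)
        (fun b : ZMod 2 => if h b = b0 then (1 : ℝ) else 0),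
      count_interval lo hi h1 h2 u]
    have e1 : (∑ c : ZMod C, if g c = c0 then (1 : ℝ) else 0) = 1 := by
      convert count_perm g c0
    have e2 : (∑ c : ZMod 2, if h c = b0 then (1 : ℝ) else 0) = 1 := by
      convert count_perm h b0
    rw [e1, e2, hcard]
    simp only [xs]
    field_simp

end Pool.Agent.MP_8ad0a3_lc
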