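import Pool.Agent.MP_8ad0a3_lc.General
import Pool.Agent.MP_8ad0a3_lc.Preds
import Pool.Agent.MP_8ad0a3_lc.Labels

/-!
# The near-exact instances
-/

open Finset

namespace Pool.Agent.MP_8ad0a3_lc

/-- The index set of the triples `(x, m, e)`. -/
def TS (K : ℕ) : Finset (ℕ × ℕ × ℕ) :=
  ((Ico (16 * K) (64 * K)) ×ˢ (Ico K (32 * K)) ×ˢ (range 2)).filter (fun t => t.1 ≠ t.2.1)

theorem mem_TS (K : ℕ) (t : ℕ × ℕ × ℕ) : t ∈ TS K ↔
    ((16 * K ≤ t.1 ∧ t.1 < 64 * K) ∧ (K ≤ t.2.1 ∧ t.2.1 < 32 * K) ∧ t.2.2 < 2) ∧ t.1 ≠ t.2.1 := by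
  unfold TS
  rw [mem_filter, mem_product, mem_product, mem_Ico, mem_Ico, mem_range]

theorem card_TS (K : ℕ) : (TS K).card ≤ 2976 * (K * K) := by
  unfold TS
  refine (card_filter_le _ _).trans ?_
  rw [card_product, card_product, Nat.card_Ico, Nat.card_Ico, card_range]
  have h1 : 64 * K - 16 * K = 48 * K := by omega
  have h2 : 32 * K - K = 31 * K := by omega
  rw [h1, h2]
  refine le_of_eq ?_
  ring

open Classical in
theorem tot_eq {Λ : Type} (F : ℕ → Λ) (K : ℕ) :
    (∑ t ∈ TS K, if ¬ Qc F t.1 t.2.1 t.2.2 then 1 else 0) = Tot F K := by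
  unfold TS Tot badn
  rw [sum_filter, sum_product, sum_comm, sum_product]
  refine sum_congr rfl ?_
  intro m _
  rw [sum_range_succ, sum_range_succ, sum_range_zero, zero_add, card_filter, card_filter]
  congr 1
  · refine sum_congr rfl ?_
    intro x _
    by_cases h : x = m
    · simp [h]
    · simp [h]
  · refine sum_congr rfl ?_
    intro x _
    by_cases h : x = m
    · simp [h]
    · simp [h]

/-- At least one triple out of sixty violates the label condition. -/
theorem tot_ge {Λ : Type} (F : ℕ → Λ) (K : ℕ) (hK : 2 ≤ K) : (TS K).card ≤ 60 * Tot F K := by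
  have h1 := card_TS K
  have h2 := tot_lower F K
  have h3 : 2 * K ≤ K * K := Nat.mul_le_mul_right K hK
  set A := K * K
  omega

theorem TS_nonempty (K : ℕ) (hK : 1 ≤ K) : (16 * K, K, 0) ∈ TS K := by
  rw [mem_TS]
  simp only
  omega

end Pool.Agent.MP_8ad0a3_lc
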