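import Pool.Agent.MP_8ad0a3_lc.Marg
import Pool.Agent.MP_8ad0a3_lc.Upper

/-!
# The near-exact instances: LP value close to one
-/

open Finset

set_option linter.unusedSectionVars false

namespace Pool.Agent.MP_8ad0a3_lc

section vars

/-- The variables of the near-exact instance. -/
abbrev VV (K : ℕ) : Type := Fin (128 * K) ⊕ Fin (128 * K) ⊕ Fin 128 ⊕ Fin 5

variable {K : ℕ} [NeZero K]

theorem pos128 : 0 < 128 * K := by
  have := Nat.pos_of_ne_zero (NeZero.ne K)
  omega

/-- grid variable -/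
def vA (a : ℕ) : VV K := Sum.inl ⟨a % (128 * K), Nat.mod_lt _ pos128⟩
/-- copy of the grid variable -/
def vB (a : ℕ) : VV K := Sum.inr (Sum.inl ⟨a % (128 * K), Nat.mod_lt _ pos128⟩)
/-- the variables of the disjunctions -/
def vT (j : Fin 128) : VV K := Sum.inr (Sum.inr (Sum.inl j))
/-- dummy variables -/
def vD (i : Fin 5) : VV K := Sum.inr (Sum.inr (Sum.inr i))

theorem vA_inj {a b : ℕ} (ha : a < 128 * K) (hb : b < 128 * K) (h : (vA a : VV K) = vA b) :
    a = b := by
  unfold vA at h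
  have h1 := Sum.inl_injective h
  rw [Fin.mk.injEq, Nat.mod_eq_of_lt ha, Nat.mod_eq_of_lt hb] at h1
  exact h1

theorem vA_ne_vB (a b : ℕ) : (vA a : VV K) ≠ vB b := by
  intro h; simp [vA, vB] at h

theorem vA_ne_vT (a : ℕ) (j : Fin 128) : (vA a : VV K) ≠ vT j := by
  intro h; simp [vA, vT] at h

theorem vA_ne_vD (a : ℕ) (j : Fin 5) : (vA a : VV K) ≠ vD j := by
  intro h; simp [vA, vD] at h

theorem vB_ne_vT (a : ℕ) (j : Fin 128) : (vB a : VV K) ≠ vT j := by
  intro h; simp [vB, vT] at h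

theorem vB_ne_vD (a : ℕ) (j : Fin 5) : (vB a : VV K) ≠ vD j := by
  intro h; simp [vB, vD] at h

theorem vD_ne_vT (i : Fin 5) (j : Fin 128) : (vD i : VV K) ≠ vT j := by
  intro h; simp [vD, vT] at h

theorem vT_inj : Function.Injective (vT : Fin 128 → VV K) := by
  intro i j h; simpa [vT] using h

theorem vD_inj : Function.Injective (vD : Fin 5 → VV K) := by
  intro i j h; simpa [vD] using h

/-- numerator of the position of a variable -/
def sV : VV K → ℕ
  | Sum.inl a => a.val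
  | Sum.inr (Sum.inl a) => a.val
  | Sum.inr (Sum.inr (Sum.inl _)) => K
  | Sum.inr (Sum.inr (Sum.inr _)) => 0

theorem sV_le (v : VV K) : sV v ≤ 128 * K := by
  rcases v with a | a | a | a
  · exact a.isLt.le
  · exact a.isLt.le
  · change K ≤ 128 * K
    omega
  · exact Nat.zero_le _

theorem sV_vA {a : ℕ} (ha : a < 128 * K) : sV (vA a : VV K) = a := Nat.mod_eq_of_lt ha
theorem sV_vB {a : ℕ} (ha : a < 128 * K) : sV (vB a : VV K) = a := Nat.mod_eq_of_lt ha
theorem sV_vT (j : Fin 128) : sV (vT j : VV K) = K := rfl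
theorem sV_vD (j : Fin 5) : sV (vD j : VV K) = 0 := rfl

/-- the five variables of a sum constraint -/
def fQ (t : ℕ × ℕ × ℕ) : Fin 5 → VV K :=
  ![vA t.2.1, vB (t.2.1 + t.2.2), vA t.1, vA (t.1 + t.2.1), vA (t.1 + 2 * t.2.1 + t.2.2)]

/-- the five variables of an equality constraint (three of them are dummies) -/
def fE (t : ℕ × ℕ × ℕ) : Fin 5 → VV K :=
  ![vA t.2.1, vB (t.2.1 + t.2.2), vD 2, vD 3, vD 4]

theorem inj_five {α : Type} (f : Fin 5 → α) (h01 : f 0 ≠ f 1) (h02 : f 0 ≠ f 2) (h03 : f 0 ≠ f 3)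
    (h04 : f 0 ≠ f 4) (h12 : f 1 ≠ f 2) (h13 : f 1 ≠ f 3) (h14 : f 1 ≠ f 4) (h23 : f 2 ≠ f 3)
    (h24 : f 2 ≠ f 4) (h34 : f 3 ≠ f 4) : Function.Injective f := by
  intro i j hij
  fin_cases i <;> fin_cases j <;> first
    | rfl
    | exact absurd hij h01
    | exact absurd hij h02
    | exact absurd hij h03
    | exact absurd hij h04
    | exact absurd hij h12
    | exact absurd hij h13
    | exact absurd hij h14
    | exact absurd hij h23
    | exact absurd hij h24
    | exact absurd hij h34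
    | exact absurd hij.symm h01
    | exact absurd hij.symm h02
    | exact absurd hij.symm h03
    | exact absurd hij.symm h04
    | exact absurd hij.symm h12
    | exact absurd hij.symm h13
    | exact absurd hij.symm h14
    | exact absurd hij.symm h23
    | exact absurd hij.symm h24
    | exact absurd hij.symm h34

theorem bounds {t : ℕ × ℕ × ℕ} (ht : t ∈ TS K) : K ≤ t.2.1 ∧ t.2.1 < 32 * K ∧ 16 * K ≤ t.1 ∧
    t.1 < 64 * K ∧ t.2.2 < 2 ∧ t.1 ≠ t.2.1 ∧ t.2.1 + t.2.2 < 128 * K ∧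
    t.1 + 2 * t.2.1 + t.2.2 < 128 * K := by
  rw [mem_TS] at ht
  omega

theorem fQ_inj {t : ℕ × ℕ × ℕ} (ht : t ∈ TS K) : Function.Injective (fQ t : Fin 5 → VV K) := by
  have hb := bounds ht
  refine inj_five _ ?_ ?_ ?_ ?_ ?_ ?_ ?_ ?_ ?_ ?_
  · exact vA_ne_vB _ _
  · intro h
    have := vA_inj (by omega) (by omega) h
    omega
  · intro h
    have := vA_inj (by omega) (by omega) h
    omega
  · intro h
    have := vA_inj (by omega) (by omega) h
    omega
  · exact (vA_ne_vB _ _).symm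
  · exact (vA_ne_vB _ _).symm
  · exact (vA_ne_vB _ _).symm
  · intro h
    have := vA_inj (by omega) (by omega) h
    omega
  · intro h
    have := vA_inj (by omega) (by omega) h
    omega
  · intro h
    have := vA_inj (by omega) (by omega) h
    omega

theorem fE_inj {t : ℕ × ℕ × ℕ} : Function.Injective (fE t : Fin 5 → VV K) := by
  refine inj_five _ ?_ ?_ ?_ ?_ ?_ ?_ ?_ ?_ ?_ ?_
  · exact vA_ne_vB _ _
  · exact vA_ne_vD _ _
  · exact vA_ne_vD _ _
  · exact vA_ne_vD _ _
  · exact vB_ne_vD _ _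
  · exact vB_ne_vD _ _
  · exact vB_ne_vD _ _
  · intro h; exact absurd (vD_inj h) (by decide)
  · intro h; exact absurd (vD_inj h) (by decide)
  · intro h; exact absurd (vD_inj h) (by decide)

theorem fQ_ne_vT (t : ℕ × ℕ × ℕ) (i : Fin 5) (j : Fin 128) : (fQ t i : VV K) ≠ vT j := by
  fin_cases i
  · exact vA_ne_vT _ _
  · exact vB_ne_vT _ _
  · exact vA_ne_vT _ _
  · exact vA_ne_vT _ _
  · exact vA_ne_vT _ _

theorem fE_ne_vT (t : ℕ × ℕ × ℕ) (i : Fin 5) (j : Fin 128) : (fE t i : VV K) ≠ vT j := by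
  fin_cases i
  · exact vA_ne_vT _ _
  · exact vB_ne_vT _ _
  · exact vD_ne_vT _ _
  · exact vD_ne_vT _ _
  · exact vD_ne_vT _ _

end vars

section lp

variable (K C L : ℕ) [NeZero K] [NeZero C] [NeZero L]

/-- index set of the constraints: the constraints of a triple are repeated 120 times, the
disjunction 119 times -/
abbrev IX : Type := {t : ℕ × ℕ × ℕ // t ∈ TS K} × ZMod C × Bool × (Fin 120 ⊕ Fin 119)

variable {K C}

/-- the five first variables of a constraint -/
def f5 (i : IX K C) : Fin 5 → VV K :=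
  match i.2.2.2 with
  | Sum.inl _ => bif i.2.2.1 then fQ i.1.1 else fE i.1.1
  | Sum.inr _ => vD

/-- the variables of a constraint -/
def eI (i : IX K C) : Fin (5 + 128) → VV K := Fin.append (f5 i) vT

variable {L}

/-- the predicate of a constraint -/
noncomputable def fI (i : IX K C) : (Fin (5 + 128) → Sym C L) → Bool :=
  match i.2.2.2 with
  | Sum.inl _ => bif i.2.2.1 then bQ i.2.1 else bE i.2.1
  | Sum.inr _ => bG

theorem eI_inj (i : IX K C) : Function.Injective (eI i) := by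
  unfold eI
  rw [Fin.append_injective_iff]
  refine ⟨?_, vT_inj, ?_⟩
  · unfold f5
    rcases i with ⟨t, π, ty, q | q⟩
    · cases ty
      · exact fE_inj
      · exact fQ_inj t.2
    · exact vD_inj
  · intro a b
    unfold f5
    rcases i with ⟨t, π, ty, q | q⟩
    · cases ty
      · exact fE_ne_vT _ _ _
      · exact fQ_ne_vT _ _ _
    · exact vD_ne_vT _ _

theorem fI_mem (i : IX K C) : (fI i : (Fin (5 + 128) → Sym C L) → Bool) ∈ Fam 128 C L := by
  unfold fI
  rcases i with ⟨t, π, ty, q | q⟩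
  · cases ty
    · exact Or.inr (Or.inl ⟨π, rfl⟩)
    · exact Or.inr (Or.inr ⟨π, rfl⟩)
  · exact Or.inl rfl

instance : Nonempty (IX K C) :=
  ⟨(⟨(16 * K, K, 0), TS_nonempty K (Nat.pos_of_ne_zero (NeZero.ne K))⟩, 0, true, Sum.inl 0)⟩

/-- lower ends of the intervals -/
def lo5 (i : IX K C) : Fin 5 → ℕ :=
  match i.2.2.2 with
  | Sum.inl _ => bif i.2.2.1 then ![i.1.1.1, i.1.1.1 + i.1.1.2.1, 0, 0, 0] else ![0, 0, 0, 0, 0]
  | Sum.inr _ => fun _ => 0

/-- upper ends of the intervals -/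
def hi5 (i : IX K C) : Fin 5 → ℕ :=
  match i.2.2.2 with
  | Sum.inl _ => bif i.2.2.1 then ![i.1.1.1 + i.1.1.2.1, i.1.1.1 + 2 * i.1.1.2.1 + i.1.1.2.2,
      i.1.1.1, i.1.1.1 + i.1.1.2.1, i.1.1.1 + 2 * i.1.1.2.1 + i.1.1.2.2] else
      ![i.1.1.2.1, i.1.1.2.1 + i.1.1.2.2, 0, 0, 0]
  | Sum.inr _ => fun _ => 0

/-- label permutations -/
def lb5 (i : IX K C) : Fin 5 → Equiv.Perm (ZMod 2) :=
  match i.2.2.2 with
  | Sum.inl _ => bif i.2.2.1 then ![Equiv.refl _, Equiv.addRight 1, Equiv.refl _, Equiv.refl _,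
      Equiv.refl _] else fun _ => Equiv.refl _
  | Sum.inr _ => fun _ => Equiv.refl _

/-- lower ends of the intervals of the disjunction variables -/
def loT (i : IX K C) (j : Fin 128) : ℕ :=
  match i.2.2.2 with
  | Sum.inl _ => 0
  | Sum.inr _ => j.val * K

/-- The random experiment of a constraint. -/
def Phi (i : IX K C) (ω : Fin (128 * K) × ZMod C × ZMod 2) : Fin (5 + 128) → Sym C L :=
  Fin.append
    (fun q => (decide (lo5 i q ≤ ω.1.val ∧ ω.1.val < hi5 i q), ω.2.1, Sum.inr (lb5 i q ω.2.2)))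
    (fun j => (decide (loT i j ≤ ω.1.val ∧ ω.1.val < loT i j + K), i.2.1 - ω.2.1,
      Sum.inr ω.2.2))

theorem interval5 (i : IX K C) (q : Fin 5) : lo5 i q ≤ hi5 i q ∧ hi5 i q ≤ 128 * K ∧
    sV (f5 i q) = hi5 i q - lo5 i q := by
  rcases i with ⟨⟨t, ht⟩, π, ty, c | c⟩
  · have hb := bounds ht
    cases ty
    · fin_cases q
      · refine ⟨Nat.zero_le _, ?_, ?_⟩
        · change t.2.1 ≤ 128 * K
          omega
        · exact sV_vA (K := K) (a := t.2.1) (by omega)
      · refine ⟨Nat.zero_le _, ?_, ?_⟩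
        · change t.2.1 + t.2.2 ≤ 128 * K
          omega
        · exact sV_vB (K := K) (a := t.2.1 + t.2.2) (by omega)
      · exact ⟨le_rfl, Nat.zero_le _, rfl⟩
      · exact ⟨le_rfl, Nat.zero_le _, rfl⟩
      · exact ⟨le_rfl, Nat.zero_le _, rfl⟩
    · fin_cases q
      · refine ⟨?_, ?_, ?_⟩
        · change t.1 ≤ t.1 + t.2.1
          omega
        · change t.1 + t.2.1 ≤ 128 * K
          omega
        · have h1 := sV_vA (K := K) (a := t.2.1) (by omega)
          change sV (vA t.2.1 : VV K) = (t.1 + t.2.1) - t.1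
          rw [h1]; omega
      · refine ⟨?_, ?_, ?_⟩
        · change t.1 + t.2.1 ≤ t.1 + 2 * t.2.1 + t.2.2
          omega
        · change t.1 + 2 * t.2.1 + t.2.2 ≤ 128 * K
          omega
        · have h1 := sV_vB (K := K) (a := t.2.1 + t.2.2) (by omega)
          change sV (vB (t.2.1 + t.2.2) : VV K) = (t.1 + 2 * t.2.1 + t.2.2) - (t.1 + t.2.1)
          rw [h1]; omega
      · refine ⟨Nat.zero_le _, ?_, ?_⟩
        · change t.1 ≤ 128 * K
          omega
        · exact sV_vA (K := K) (a := t.1) (by omega)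
      · refine ⟨Nat.zero_le _, ?_, ?_⟩
        · change t.1 + t.2.1 ≤ 128 * K
          omega
        · exact sV_vA (K := K) (a := t.1 + t.2.1) (by omega)
      · refine ⟨Nat.zero_le _, ?_, ?_⟩
        · change t.1 + 2 * t.2.1 + t.2.2 ≤ 128 * K
          omega
        · exact sV_vA (K := K) (a := t.1 + 2 * t.2.1 + t.2.2) (by omega)
  · exact ⟨le_rfl, Nat.zero_le _, rfl⟩

theorem intervalT (i : IX K C) (j : Fin 128) : loT i j + K ≤ 128 * K := by
  rcases i with ⟨t, π, ty, c | c⟩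
  · change 0 + K ≤ 128 * K
    omega
  · change j.val * K + K ≤ 128 * K
    have h1 : j.val + 1 ≤ 128 := j.isLt
    have h2 : (j.val + 1) * K ≤ 128 * K := Nat.mul_le_mul_right K h1
    linarith [h2, add_mul j.val 1 K]

open Classical in
theorem Phi_marg (i : IX K C) (j : Fin (5 + 128)) (σ : Sym C L) :
    (∑ ω : Fin (128 * K) × ZMod C × ZMod 2,
      @ite ℝ ((Phi i ω j : Sym C L) = σ) (Classical.propDecidable _) (1 : ℝ) 0) =
      xs (128 * K) C (sV (eI i j)) σ * Fintype.card (Fin (128 * K) × ZMod C × ZMod 2) := by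
  refine Fin.addCases (fun q => ?_) (fun q => ?_) j
  · obtain ⟨h1, h2, h3⟩ := interval5 i q
    have he : eI i (Fin.castAdd 128 q) = f5 i q := Fin.append_left _ _ _
    rw [he, h3]
    refine marg_count (N := 128 * K) (lo5 i q) (hi5 i q) h1 h2 (Equiv.refl _) (lb5 i q) σ
      (fun ω => Phi i ω (Fin.castAdd 128 q)) ?_
    intro ω
    simp only [Phi, Fin.append_left, Equiv.refl_apply]
  · have h2 := intervalT i q
    have he : eI i (Fin.natAdd 5 q) = vT q := Fin.append_right _ _ _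
    have h3 : sV (vT q : VV K) = (loT i q + K) - loT i q := by
      rw [sV_vT]; omega
    rw [he, h3]
    refine marg_count (N := 128 * K) (loT i q) (loT i q + K) (by omega) h2
      (Equiv.subLeft i.2.1) (Equiv.refl _) σ (fun ω => Phi i ω (Fin.natAdd 5 q)) ?_
    intro ω
    simp only [Phi, Fin.append_right, Equiv.refl_apply, Equiv.subLeft_apply]

theorem U_Phi (i : IX K C) (ω : Fin (128 * K) × ZMod C × ZMod 2) (q : Fin 5) :
    U (Phi i ω : Fin (5 + 128) → Sym C L) q =
      decide (lo5 i q ≤ ω.1.val ∧ ω.1.val < hi5 i q) := by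
  simp only [U, Phi, Fin.append_left]

theorem Fl_Phi (i : IX K C) (ω : Fin (128 * K) × ZMod C × ZMod 2) (q : Fin 5) :
    Fl (Phi i ω : Fin (5 + 128) → Sym C L) q = ω.2.1 := by
  simp only [Fl, Phi, Fin.append_left]

theorem Lb_Phi (i : IX K C) (ω : Fin (128 * K) × ZMod C × ZMod 2) (q : Fin 5) :
    Lb (Phi i ω : Fin (5 + 128) → Sym C L) q = Sum.inr (lb5 i q ω.2.2) := by
  simp only [Lb, Phi, Fin.append_left]

theorem Tb_Phi (i : IX K C) (ω : Fin (128 * K) × ZMod C × ZMod 2) (q : Fin 128) :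
    Tb (Phi i ω : Fin (5 + 128) → Sym C L) q =
      decide (loT i q ≤ ω.1.val ∧ ω.1.val < loT i q + K) := by
  simp only [Tb, Phi, Fin.append_right]

theorem Tf_Phi (i : IX K C) (ω : Fin (128 * K) × ZMod C × ZMod 2) (q : Fin 128) :
    Tf (Phi i ω : Fin (5 + 128) → Sym C L) q = i.2.1 - ω.2.1 := by
  simp only [Tf, Phi, Fin.append_right]

theorem sat_G (t : {t : ℕ × ℕ × ℕ // t ∈ TS K}) (π : ZMod C) (ty : Bool) (c : Fin 119)
    (ω : Fin (128 * K) × ZMod C × ZMod 2) :
    (fI (t, π, ty, Sum.inr c) : (Fin (5 + 128) → Sym C L) → Bool)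
      (Phi (t, π, ty, Sum.inr c) ω) = true := by
  have h1 : (fI ((t, π, ty, Sum.inr c) : IX K C) : (Fin (5 + 128) → Sym C L) → Bool) = bG := rfl
  rw [h1, bG_iff]
  have hK : 0 < K := Nat.pos_of_ne_zero (NeZero.ne K)
  have hr := ω.1.isLt
  have hq : ω.1.val / K < 128 := by
    rw [Nat.div_lt_iff_lt_mul hK]
    exact hr
  refine ⟨⟨ω.1.val / K, hq⟩, ?_⟩
  rw [Tb_Phi, decide_eq_true_eq]
  change (ω.1.val / K) * K ≤ ω.1.val ∧ ω.1.val < (ω.1.val / K) * K + K
  refine ⟨Nat.div_mul_le_self _ _, ?_⟩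
  have h2 := Nat.div_add_mod ω.1.val K
  have h3 := Nat.mod_lt ω.1.val hK
  rw [mul_comm] at h2
  omega

theorem sat_Q (t : {t : ℕ × ℕ × ℕ // t ∈ TS K}) (π : ZMod C) (c : Fin 120)
    (ω : Fin (128 * K) × ZMod C × ZMod 2) :
    (fI (t, π, true, Sum.inl c) : (Fin (5 + 128) → Sym C L) → Bool)
      (Phi (t, π, true, Sum.inl c) ω) = true := by
  have h1 : (fI ((t, π, true, Sum.inl c) : IX K C) : (Fin (5 + 128) → Sym C L) → Bool) = bQ π := rfl
  rw [h1, bQ_iff]
  have hb := bounds t.2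
  have u0 := U_Phi (L := L) ((t, π, true, Sum.inl c) : IX K C) ω 0
  have u1 := U_Phi (L := L) ((t, π, true, Sum.inl c) : IX K C) ω 1
  have u2 := U_Phi (L := L) ((t, π, true, Sum.inl c) : IX K C) ω 2
  have u3 := U_Phi (L := L) ((t, π, true, Sum.inl c) : IX K C) ω 3
  have u4 := U_Phi (L := L) ((t, π, true, Sum.inl c) : IX K C) ω 4
  change _ = decide (t.1.1 ≤ ω.1.val ∧ ω.1.val < t.1.1 + t.1.2.1) at u0
  change _ = decide (t.1.1 + t.1.2.1 ≤ ω.1.val ∧ ω.1.val < t.1.1 + 2 * t.1.2.1 + t.1.2.2) at u1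
  change _ = decide (0 ≤ ω.1.val ∧ ω.1.val < t.1.1) at u2
  change _ = decide (0 ≤ ω.1.val ∧ ω.1.val < t.1.1 + t.1.2.1) at u3
  change _ = decide (0 ≤ ω.1.val ∧ ω.1.val < t.1.1 + 2 * t.1.2.1 + t.1.2.2) at u4
  have hfl : Fl (Phi ((t, π, true, Sum.inl c) : IX K C) ω : Fin (5 + 128) → Sym C L) 4 +
      Tf (Phi ((t, π, true, Sum.inl c) : IX K C) ω : Fin (5 + 128) → Sym C L) 0 = π := by
    rw [Fl_Phi, Tf_Phi]
    ring
  by_cases c1 : ω.1.val < t.1.1
  · right
    refine ⟨Or.inr (Or.inr ⟨?_, ?_, ?_, ?_, ?_⟩), hfl⟩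
    · rw [u0, decide_eq_false_iff_not]; omega
    · rw [u1, decide_eq_false_iff_not]; omega
    · rw [u2, decide_eq_true_eq]; omega
    · rw [u3, decide_eq_true_eq]; omega
    · rw [u4, decide_eq_true_eq]; omega
  · by_cases c2 : ω.1.val < t.1.1 + t.1.2.1
    · right
      refine ⟨Or.inl ⟨?_, ?_, ?_, ?_, ?_⟩, hfl⟩
      · rw [u0, decide_eq_true_eq]; omega
      · rw [u1, decide_eq_false_iff_not]; omega
      · rw [u2, decide_eq_false_iff_not]; omega
      · rw [u3, decide_eq_true_eq]; omega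
      · rw [u4, decide_eq_true_eq]; omega
    · by_cases c3 : ω.1.val < t.1.1 + 2 * t.1.2.1 + t.1.2.2
      · right
        refine ⟨Or.inr (Or.inl ⟨?_, ?_, ?_, ?_, ?_⟩), hfl⟩
        · rw [u0, decide_eq_false_iff_not]; omega
        · rw [u1, decide_eq_true_eq]; omega
        · rw [u2, decide_eq_false_iff_not]; omega
        · rw [u3, decide_eq_false_iff_not]; omega
        · rw [u4, decide_eq_true_eq]; omega
      · left
        refine ⟨?_, ?_, ?_⟩
        · intro q
          fin_cases q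
          · change U _ 0 = false
            rw [u0, decide_eq_false_iff_not]; omega
          · change U _ 1 = false
            rw [u1, decide_eq_false_iff_not]; omega
          · change U _ 2 = false
            rw [u2, decide_eq_false_iff_not]; omega
          · change U _ 3 = false
            rw [u3, decide_eq_false_iff_not]; omega
          · change U _ 4 = false
            rw [u4, decide_eq_false_iff_not]; omega
        · intro q
          rw [Tb_Phi, decide_eq_false_iff_not]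
          change ¬ (0 ≤ ω.1.val ∧ ω.1.val < 0 + K)
          omega
        · intro hlab
          rw [Lb_Phi, Lb_Phi] at hlab
          have h2 : ω.2.2 = ω.2.2 + 1 := Sum.inr_injective hlab
          have h3 : (1 : ZMod 2) = 0 := by
            have := congrArg (fun y => y - ω.2.2) h2
            simpa using this.symm
          exact absurd h3 (by decide)

theorem sat_E (t : {t : ℕ × ℕ × ℕ // t ∈ TS K}) (π : ZMod C) (c : Fin 120)
    (ω : Fin (128 * K) × ZMod C × ZMod 2) (hω : ω.1.val ≠ t.1.2.1) :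
    (fI (t, π, false, Sum.inl c) : (Fin (5 + 128) → Sym C L) → Bool)
      (Phi (t, π, false, Sum.inl c) ω) = true := by
  have h1 : (fI ((t, π, false, Sum.inl c) : IX K C) : (Fin (5 + 128) → Sym C L) → Bool) =
    bE π := rfl
  rw [h1, bE_iff]
  have hb := bounds t.2
  have u0 := U_Phi (L := L) ((t, π, false, Sum.inl c) : IX K C) ω 0
  have u1 := U_Phi (L := L) ((t, π, false, Sum.inl c) : IX K C) ω 1
  change _ = decide (0 ≤ ω.1.val ∧ ω.1.val < t.1.2.1) at u0
  change _ = decide (0 ≤ ω.1.val ∧ ω.1.val < t.1.2.1 + t.1.2.2) at u1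
  by_cases c1 : ω.1.val < t.1.2.1
  · right
    refine ⟨?_, ?_, ?_⟩
    · rw [u0, decide_eq_true_eq]; omega
    · rw [u1, decide_eq_true_eq]; omega
    · rw [Fl_Phi, Tf_Phi]
      ring
  · left
    refine ⟨?_, ?_, ?_, ?_⟩
    · rw [u0, decide_eq_false_iff_not]; omega
    · rw [u1, decide_eq_false_iff_not]; omega
    · intro q
      rw [Tb_Phi, decide_eq_false_iff_not]
      change ¬ (0 ≤ ω.1.val ∧ ω.1.val < 0 + K)
      omega
    · rw [Lb_Phi, Lb_Phi]
      rfl

variable (K C L)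

/-- The near-exact instance. -/
noncomputable def NI : Inst (Sym C L) (5 + 128) (Fam 128 C L) :=
  Inst.ofFamily (ι := IX K C) (V := VV K) eI eI_inj fI fI_mem

theorem sum_point (m : ℕ) : (∑ ω : Fin (128 * K) × ZMod C × ZMod 2,
    if ω.1.val = m then (1 : ℝ) else 0) ≤ C * 2 := by
  have h := sum_three (α := Fin (128 * K)) (β := ZMod C) (γ := ZMod 2)
    (fun r => if r.val = m then (1 : ℝ) else 0) (fun _ => 1) (fun _ => 1)
  simp only [mul_one, sum_const, card_univ, ZMod.card, nsmul_eq_mul] at h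
  rw [h]
  have h2 : (∑ r : Fin (128 * K), if r.val = m then (1 : ℝ) else 0) ≤ 1 := by
    rw [Fin.sum_univ_eq_sum_range (fun r => if r = m then (1 : ℝ) else 0) (128 * K)]
    rw [sum_ite_eq']
    split_ifs <;> norm_num
  have h3 : (0 : ℝ) ≤ (C : ℝ) * ((2 : ℕ) : ℝ) := by positivity
  calc (∑ r : Fin (128 * K), if r.val = m then (1 : ℝ) else 0) * ((C : ℝ) * ((2 : ℕ) : ℝ))
      ≤ 1 * ((C : ℝ) * ((2 : ℕ) : ℝ)) := mul_le_mul_of_nonneg_right h2 h3
    _ = C * 2 := by push_cast; ring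

/-- The LP value of the near-exact instance. -/
theorem NI_lp : 1 - 1 / (128 * K : ℝ) ≤ (NI K C L).lpVal := by
  classical
  have hK : (0 : ℝ) < K := by exact_mod_cast Nat.pos_of_ne_zero (NeZero.ne K)
  have hcard : (Fintype.card (Fin (128 * K) × ZMod C × ZMod 2) : ℝ) = 128 * K * C * 2 := by
    rw [Fintype.card_prod, Fintype.card_prod, Fintype.card_fin, ZMod.card, ZMod.card]
    push_cast
    ring
  refine Inst.le_lpVal_ofFamily (S := Sym C L) (F := Fam 128 C L) (ι := IX K C) (V := VV K)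
    eI eI_inj fI fI_mem (Ω := Fin (128 * K) × ZMod C × ZMod 2)
    Phi (fun v σ => xs (128 * K) C (sV v) σ) ?_ ?_ ?_ _ ?_
  · intro v σ
    exact xs_nonneg (sV v) (sV_le v) σ
  · intro v
    exact xs_sum (N := 128 * K) (sV v)
  · intro i j σ
    exact Phi_marg i j σ
  · intro i
    have hbase : (1 - 1 / (128 * K : ℝ)) * Fintype.card (Fin (128 * K) × ZMod C × ZMod 2) =
        Fintype.card (Fin (128 * K) × ZMod C × ZMod 2) - C * 2 := by
      rw [hcard]
      field_simp
    rw [hbase]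
    have hC : (0 : ℝ) ≤ C := by positivity
    have hall : (∀ ω, (fI i : (Fin (5 + 128) → Sym C L) → Bool) (Phi i ω) = true) →
        (Fintype.card (Fin (128 * K) × ZMod C × ZMod 2) : ℝ) - C * 2 ≤
        ∑ ω : Fin (128 * K) × ZMod C × ZMod 2,
          if (fI i : (Fin (5 + 128) → Sym C L) → Bool) (Phi i ω) = true then (1 : ℝ) else 0 := by
      intro h
      rw [sum_congr rfl (fun ω _ => if_pos (h ω))]
      rw [sum_const, card_univ, nsmul_eq_mul, mul_one]
      linarith
    rcases i with ⟨t, π, ty, c | c⟩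
    · cases ty
      · have hle : (∑ ω : Fin (128 * K) × ZMod C × ZMod 2,
            (1 - if ω.1.val = t.1.2.1 then (1 : ℝ) else 0)) ≤
            ∑ ω : Fin (128 * K) × ZMod C × ZMod 2,
            if (fI ((t, π, false, Sum.inl c) : IX K C) : (Fin (5 + 128) → Sym C L) → Bool)
              (Phi (t, π, false, Sum.inl c) ω) = true then (1 : ℝ) else 0 := by
          refine sum_le_sum ?_
          intro ω _
          by_cases h : ω.1.val = t.1.2.1
          · rw [if_pos h, sub_self]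
            split_ifs <;> norm_num
          · rw [if_neg h, if_pos (sat_E t π c ω h), sub_zero]
        rw [sum_sub_distrib, sum_const, card_univ, nsmul_eq_mul, mul_one] at hle
        have := sum_point K C t.1.2.1
        linarith
      · exact hall (fun ω => sat_Q t π c ω)
    · exact hall (fun ω => sat_G t π ty c ω)

end lp

end Pool.Agent.MP_8ad0a3_lc
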