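import Pool.Agent.MP_8ad0a3_lc.Noisy

/-!
# The near-exact instances: the value
-/

open Finset

set_option linter.unusedSectionVars false

namespace Pool.Agent.MP_8ad0a3_lc

variable {K C L : ℕ} [NeZero K] [NeZero C] [NeZero L]

theorem pi_bound (P : ZMod C → Bool) (c : Prop) [Decidable c] (c0 : ZMod C)
    (h : ∀ π, P π = true → c ∨ c0 = π) :
    (∑ π : ZMod C, if P π = true then (1 : ℝ) else 0) ≤ C * (if c then (1 : ℝ) else 0) + 1 := by
  have h1 : (∑ π : ZMod C, if P π = true then (1 : ℝ) else 0) ≤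
      ∑ π : ZMod C, ((if c then (1 : ℝ) else 0) + (if c0 = π then (1 : ℝ) else 0)) := by
    refine sum_le_sum ?_
    intro π _
    by_cases hP : P π = true
    · rcases h π hP with hc | hc
      · rw [if_pos hP, if_pos hc]
        have : (0 : ℝ) ≤ if c0 = π then (1 : ℝ) else 0 := by split_ifs <;> norm_num
        linarith
      · rw [if_pos hP, if_pos hc]
        have : (0 : ℝ) ≤ if c then (1 : ℝ) else 0 := by split_ifs <;> norm_num
        linarith
    · rw [if_neg hP]
      have h2 : (0 : ℝ) ≤ if c0 = π then (1 : ℝ) else 0 := by split_ifs <;> norm_num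
      have h3 : (0 : ℝ) ≤ if c then (1 : ℝ) else 0 := by split_ifs <;> norm_num
      linarith
  refine h1.trans ?_
  rw [sum_add_distrib, sum_const, card_univ, ZMod.card, nsmul_eq_mul, sum_ite_eq]
  simp

section assignment

variable (τ : VV K → Sym C L)

/-- all the disjunction variables are zero -/
def tz : Prop := ∀ j, (τ (vT j)).1 = false

/-- labels of the grid variables -/
def FA (a : ℕ) : ZMod L ⊕ ZMod 2 := (τ (vA a)).2.2
/-- labels of the copies -/
def FB (a : ℕ) : ZMod L ⊕ ZMod 2 := (τ (vB a)).2.2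

open Classical in
theorem bound_E (t : ℕ × ℕ × ℕ) :
    (∑ π : ZMod C, if (bE π (fun j => τ (Fin.append (fE t) vT j)) : Bool) = true
      then (1 : ℝ) else 0) ≤
      C * (if (tz τ ∧ FA τ t.2.1 = FB τ (t.2.1 + t.2.2)) then (1 : ℝ) else 0) + 1 := by
  refine pi_bound (fun π => bE π (fun j => τ (Fin.append (fE t) vT j))) _
    (Fl (fun j => τ (Fin.append (fE t) vT j)) 0 + Tf (fun j => τ (Fin.append (fE t) vT j)) 0) ?_
  intro π hπ
  rw [bE_iff] at hπ
  rcases hπ with h | h
  · left
    refine ⟨?_, ?_⟩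
    · intro j
      have := h.2.2.1 j
      simp only [Tb, Fin.append_right] at this
      exact this
    · have := h.2.2.2
      simp only [Lb, Fin.append_left] at this
      exact this
  · right
    exact h.2.2

open Classical in
theorem bound_Q (t : ℕ × ℕ × ℕ) :
    (∑ π : ZMod C, if (bQ π (fun j => τ (Fin.append (fQ t) vT j)) : Bool) = true
      then (1 : ℝ) else 0) ≤
      C * (if (tz τ ∧ Q3 (FA τ t.2.1) (FB τ (t.2.1 + t.2.2)) (FA τ t.1) (FA τ (t.1 + t.2.1))
        (FA τ (t.1 + 2 * t.2.1 + t.2.2))) then (1 : ℝ) else 0) + 1 := by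
  refine pi_bound (fun π => bQ π (fun j => τ (Fin.append (fQ t) vT j))) _
    (Fl (fun j => τ (Fin.append (fQ t) vT j)) 4 + Tf (fun j => τ (Fin.append (fQ t) vT j)) 0) ?_
  intro π hπ
  rw [bQ_iff] at hπ
  rcases hπ with h | h
  · left
    refine ⟨?_, ?_⟩
    · intro j
      have := h.2.1 j
      simp only [Tb, Fin.append_right] at this
      exact this
    · have := h.2.2
      simp only [Lb, Fin.append_left] at this
      exact this
  · right
    exact h.2

open Classical in
theorem bound_G : (if (bG (fun j => τ (Fin.append vD vT j)) : Bool) = true then (1 : ℝ) else 0) =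
    if tz τ then 0 else 1 := by
  have h : bG (fun j => τ (Fin.append vD vT j)) = true ↔ ¬ tz τ := by
    rw [bG_iff]
    unfold PG tz
    simp only [Tb, Fin.append_right]
    push Not
    simp
  by_cases h1 : tz τ
  · rw [if_pos h1, if_neg (fun h2 => (h.1 h2) h1)]
  · rw [if_neg h1, if_pos (h.2 h1)]

open Classical in
/-- the labels of a triple -/
theorem triple_bound (t : ℕ × ℕ × ℕ) :
    (if (tz τ ∧ FA τ t.2.1 = FB τ (t.2.1 + t.2.2)) then (1 : ℝ) else 0) +
    (if (tz τ ∧ Q3 (FA τ t.2.1) (FB τ (t.2.1 + t.2.2)) (FA τ t.1) (FA τ (t.1 + t.2.1))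
        (FA τ (t.1 + 2 * t.2.1 + t.2.2))) then (1 : ℝ) else 0) ≤
    if tz τ then (2 - ((if ¬ Qc (FA τ) t.1 t.2.1 t.2.2 then 1 else 0 : ℕ) : ℝ)) else 0 := by
  by_cases h1 : tz τ
  · rw [if_pos h1]
    by_cases h2 : FA τ t.2.1 = FB τ (t.2.1 + t.2.2)
    · by_cases h3 : Q3 (FA τ t.2.1) (FB τ (t.2.1 + t.2.2)) (FA τ t.1) (FA τ (t.1 + t.2.1))
        (FA τ (t.1 + 2 * t.2.1 + t.2.2))
      · have h4 : Qc (FA τ) t.1 t.2.1 t.2.2 := h3 h2
        rw [if_pos ⟨h1, h2⟩, if_pos ⟨h1, h3⟩, if_neg (not_not.2 h4)]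
        norm_num
      · rw [if_pos ⟨h1, h2⟩, if_neg (fun h => h3 h.2)]
        split_ifs <;> norm_num
    · rw [if_neg (fun h => h2 h.2)]
      split_ifs <;> norm_num
  · rw [if_neg h1, if_neg (fun h => h1 h.1), if_neg (fun h => h1 h.1)]
    norm_num

open Classical in
/-- Upper bound for the number of satisfied constraints. -/
theorem sat_count (hK : 2 ≤ K) :
    (∑ i : IX K C, if (fI i (fun j => τ (eI i j)) : Bool) = true then (1 : ℝ) else 0) ≤
      2 * (TS K).card * (119 * C + 120) := by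
  have hC : (0 : ℝ) ≤ C := by positivity
  -- reorganise the sum
  have h1 : (∑ i : IX K C, if (fI i (fun j => τ (eI i j)) : Bool) = true then (1 : ℝ) else 0) =
      ∑ t : {t : ℕ × ℕ × ℕ // t ∈ TS K},
        (120 * ((∑ π : ZMod C, if (bE π (fun j => τ (Fin.append (fE t.1) vT j)) : Bool) = true
          then (1 : ℝ) else 0) +
        (∑ π : ZMod C, if (bQ π (fun j => τ (Fin.append (fQ t.1) vT j)) : Bool) = true
          then (1 : ℝ) else 0)) + 119 * (2 * C * (if tz τ then 0 else 1))) := by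
    unfold IX
    rw [Fintype.sum_prod_type]
    refine sum_congr rfl ?_
    intro t _
    rw [Fintype.sum_prod_type]
    have h2 : ∀ π : ZMod C, (∑ x : Bool × (Fin 120 ⊕ Fin 119),
        if (fI ((t, π, x) : IX K C) (fun j => τ (eI ((t, π, x) : IX K C) j)) : Bool) = true
          then (1 : ℝ) else 0) =
        120 * ((if (bE π (fun j => τ (Fin.append (fE t.1) vT j)) : Bool) = true
          then (1 : ℝ) else 0) +
        (if (bQ π (fun j => τ (Fin.append (fQ t.1) vT j)) : Bool) = true
          then (1 : ℝ) else 0)) + 119 * (2 * (if tz τ then 0 else 1)) := by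
      intro π
      rw [Fintype.sum_prod_type, Fintype.sum_bool, Fintype.sum_sum_type, Fintype.sum_sum_type]
      have e1 : ∀ c : Fin 120,
          (if (fI ((t, π, true, Sum.inl c) : IX K C)
            (fun j => τ (eI ((t, π, true, Sum.inl c) : IX K C) j)) : Bool) = true
            then (1 : ℝ) else 0) =
          if (bQ π (fun j => τ (Fin.append (fQ t.1) vT j)) : Bool) = true
            then (1 : ℝ) else 0 := fun c => rfl
      have e2 : ∀ c : Fin 120,
          (if (fI ((t, π, false, Sum.inl c) : IX K C)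
            (fun j => τ (eI ((t, π, false, Sum.inl c) : IX K C) j)) : Bool) = true
            then (1 : ℝ) else 0) =
          if (bE π (fun j => τ (Fin.append (fE t.1) vT j)) : Bool) = true
            then (1 : ℝ) else 0 := fun c => rfl
      have e3 : ∀ (ty : Bool) (c : Fin 119),
          (if (fI ((t, π, ty, Sum.inr c) : IX K C)
            (fun j => τ (eI ((t, π, ty, Sum.inr c) : IX K C) j)) : Bool) = true
            then (1 : ℝ) else 0) =
          if tz τ then 0 else 1 := fun ty c => bound_G τ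
      rw [sum_congr rfl (fun c _ => e1 c), sum_congr rfl (fun c _ => e2 c),
        sum_congr rfl (fun c _ => e3 true c), sum_congr rfl (fun c _ => e3 false c)]
      simp only [sum_const, card_univ, Fintype.card_fin, nsmul_eq_mul]
      push_cast
      ring
    rw [sum_congr rfl (fun π _ => h2 π)]
    rw [sum_add_distrib, ← mul_sum, sum_add_distrib, sum_const, card_univ, ZMod.card, nsmul_eq_mul]
    ring
  rw [h1]
  -- bound each triple
  have h3 : ∀ t ∈ (univ : Finset {t : ℕ × ℕ × ℕ // t ∈ TS K}),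
        (120 * ((∑ π : ZMod C, if (bE π (fun j => τ (Fin.append (fE t.1) vT j)) : Bool) = true
          then (1 : ℝ) else 0) +
        (∑ π : ZMod C, if (bQ π (fun j => τ (Fin.append (fQ t.1) vT j)) : Bool) = true
          then (1 : ℝ) else 0)) + 119 * (2 * C * (if tz τ then 0 else 1))) ≤
      (if tz τ then 240 * (C : ℝ) + 240 -
        120 * C * ((if ¬ Qc (FA τ) t.1.1 t.1.2.1 t.1.2.2 then 1 else 0 : ℕ) : ℝ)
        else 238 * C + 240) := by
    intro t _
    have b1 := bound_E τ t.1
    have b2 := bound_Q τ t.1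
    have b3 := triple_bound τ t.1
    have b4 := mul_le_mul_of_nonneg_left b3 hC
    by_cases h4 : tz τ
    · rw [if_pos h4] at b4 ⊢
      rw [if_pos h4]
      linarith
    · rw [if_neg h4] at b4 ⊢
      rw [if_neg h4]
      linarith
  refine (sum_le_sum h3).trans ?_
  have hT : (Fintype.card {t : ℕ × ℕ × ℕ // t ∈ TS K} : ℝ) = (TS K).card := by
    rw [Fintype.card_coe]
  by_cases h4 : tz τ
  · have h5 : ∀ t : {t : ℕ × ℕ × ℕ // t ∈ TS K},
      (if tz τ then 240 * (C : ℝ) + 240 -
        120 * C * ((if ¬ Qc (FA τ) t.1.1 t.1.2.1 t.1.2.2 then 1 else 0 : ℕ) : ℝ)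
        else 238 * C + 240) = 240 * (C : ℝ) + 240 -
        120 * C * ((if ¬ Qc (FA τ) t.1.1 t.1.2.1 t.1.2.2 then 1 else 0 : ℕ) : ℝ) :=
      fun t => if_pos h4
    rw [sum_congr rfl (fun t _ => h5 t), sum_sub_distrib, sum_const, card_univ, nsmul_eq_mul, hT,
      ← mul_sum]
    have h6 : (∑ t : {t : ℕ × ℕ × ℕ // t ∈ TS K},
        ((if ¬ Qc (FA τ) t.1.1 t.1.2.1 t.1.2.2 then 1 else 0 : ℕ) : ℝ)) = (Tot (FA τ) K : ℝ) := by
      rw [← tot_eq (FA τ) K]
      push_cast
      rw [← sum_coe_sort (TS K)]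
    rw [h6]
    have h7 : ((TS K).card : ℝ) ≤ 60 * (Tot (FA τ) K : ℝ) := by
      exact_mod_cast tot_ge (FA τ) K hK
    have h8 := mul_le_mul_of_nonneg_left h7 hC
    linarith
  · have h5 : ∀ t : {t : ℕ × ℕ × ℕ // t ∈ TS K},
      (if tz τ then 240 * (C : ℝ) + 240 -
        120 * C * ((if ¬ Qc (FA τ) t.1.1 t.1.2.1 t.1.2.2 then 1 else 0 : ℕ) : ℝ)
        else 238 * C + 240) = 238 * C + 240 :=
      fun t => if_neg h4
    rw [sum_congr rfl (fun t _ => h5 t), sum_const, card_univ, nsmul_eq_mul, hT]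
    linarith

end assignment

variable (K C L)

/-- The value of the near-exact instance. -/
theorem NI_val (hK : 2 ≤ K) : (NI K C L).val ≤ (119 * C + 120) / (239 * C) := by
  classical
  have hC : (0 : ℝ) < C := by exact_mod_cast Nat.pos_of_ne_zero (NeZero.ne C)
  have hT : (0 : ℝ) < (TS K).card := by
    have : (16 * K, K, 0) ∈ TS K := TS_nonempty K (by omega)
    exact_mod_cast card_pos.2 ⟨_, this⟩
  refine Inst.val_le _ _ (by positivity) ?_
  intro τ
  have h1 := Inst.valOf_ofFamily (F := Fam 128 C L) (eI : IX K C → _) eI_inj fI fI_mem τ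
  have h2 : (NI K C L).valOf τ = _ := h1
  rw [h2]
  have hcard : (Fintype.card (IX K C) : ℝ) = (TS K).card * (C * (2 * 239)) := by
    unfold IX
    rw [Fintype.card_prod, Fintype.card_prod, Fintype.card_prod, Fintype.card_sum,
      Fintype.card_coe, ZMod.card, Fintype.card_bool, Fintype.card_fin, Fintype.card_fin]
    push_cast
    ring
  rw [hcard, div_le_div_iff₀ (by positivity) (by positivity)]
  have h3 := sat_count τ hK
  have h4 : (0 : ℝ) ≤ 239 * C := by positivity
  have h5 := mul_le_mul_of_nonneg_right h3 h4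
  refine h5.trans (le_of_eq ?_)
  ring

end Pool.Agent.MP_8ad0a3_lc
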